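import Mathlib
import Pool.Agent.Helper601.PNT

set_option autoImplicit false

/-!
# Exponents of an amplitude in base two: blocks of zeros

For real `β > 0` and a prime `p` let `W β p` be the `p`-rough part (the product, with multiplicity,
of the prime factors larger than `p`) of the largest integer below `β * 2 ^ p`.  The counting
function of the primes `p` with `W β p` prime is `M β`.
-/

namespace Pool.Agent.R500.MG

open Filter Topology Set

/-- The product, with multiplicity, of the prime factors of `m` that are larger than `p`. -/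
def roughPart (p m : ℕ) : ℕ := (m.primeFactorsList.filter (fun r => p < r)).prod

/-- The `p`-rough part of the largest integer below `β * 2 ^ p`. -/
noncomputable def W (β : ℝ) (p : ℕ) : ℕ := roughPart p (⌈β * 2 ^ p⌉₊ - 1)

/-- The number of primes `p ≤ n` for which `W β p` is prime. -/
noncomputable def M (β : ℝ) (n : ℕ) : ℕ :=
  ((Finset.range (n + 1)).filter (fun p => p.Prime ∧ (W β p).Prime)).card

/-- At the amplitude `1` the number `W` is the Mersenne number. -/
lemma W_one {p : ℕ} (hp : p.Prime) : W 1 p = 2 ^ p - 1 := by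
  have e1 : (1 : ℝ) * 2 ^ p = ((2 ^ p : ℕ) : ℝ) := by push_cast; ring
  unfold W
  rw [e1, Nat.ceil_natCast]
  unfold roughPart
  rw [List.filter_eq_self.2, Nat.prod_primeFactorsList]
  · have h := hp.two_le
    have : 2 ^ 2 ≤ 2 ^ p := Nat.pow_le_pow_right (by norm_num) h
    omega
  · intro r hr
    obtain ⟨hr1, hr2⟩ := Nat.mem_primeFactorsList'.1 hr
    have hr2' := hr2.1
    have : Fact r.Prime := ⟨hr1⟩
    have : Fact p.Prime := ⟨hp⟩
    have h1 : (2 : ZMod r) ^ p = 1 := by
      have h3 : ((2 ^ p - 1 : ℕ) : ZMod r) = 0 := (ZMod.natCast_eq_zero_iff _ _).2 hr2'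
      rw [Nat.cast_sub Nat.one_le_two_pow] at h3
      push_cast at h3
      exact sub_eq_zero.1 h3
    have h2 : (2 : ZMod r) ≠ 1 := by
      intro h
      have : (1 : ZMod r) = 0 := by linear_combination h
      exact one_ne_zero this
    have h4 : orderOf (2 : ZMod r) = p := orderOf_eq_prime h1 h2
    have h5 : (2 : ZMod r) ≠ 0 := by
      intro h
      rw [h, zero_pow hp.ne_zero] at h1
      exact zero_ne_one h1
    have h6 : orderOf (2 : ZMod r) ∣ r - 1 := orderOf_dvd_of_pow_eq_one (ZMod.pow_card_sub_one_eq_one h5)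
    rw [h4] at h6
    have h7 : p ≤ r - 1 := Nat.le_of_dvd (by have := hr1.two_le; omega) h6
    have := hr1.two_le
    simp only [decide_eq_true_eq]
    omega

/-- The counting function at the amplitude `1` is that of the Mersenne prime exponents. -/
theorem M_one (n : ℕ) :
    M 1 n = ((Finset.range (n + 1)).filter (fun p => p.Prime ∧ (2 ^ p - 1).Prime)).card := by
  unfold M
  congr 1
  refine Finset.filter_congr fun p _ => and_congr_right fun hp => ?_
  rw [W_one hp]

/-! ### the rough part -/

lemma roughPart_mul (j : ℕ) {a b : ℕ} (ha : a ≠ 0) (hb : b ≠ 0) :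
    roughPart j (a * b) = roughPart j a * roughPart j b := by
  unfold roughPart
  rw [← List.prod_append, ← List.filter_append]
  exact ((Nat.perm_primeFactorsList_mul ha hb).filter _).prod_eq

lemma roughPart_smooth {j m : ℕ} (h : ∀ q : ℕ, q.Prime → q ∣ m → q ≤ j) : roughPart j m = 1 := by
  unfold roughPart
  have : m.primeFactorsList.filter (fun r => j < r) = [] := by
    rw [List.filter_eq_nil_iff]
    intro r hr
    have := h r (Nat.prime_of_mem_primeFactorsList hr) (Nat.dvd_of_mem_primeFactorsList hr)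
    simp only [decide_eq_true_eq]
    omega
  rw [this, List.prod_nil]

lemma roughPart_two_pow {j : ℕ} (hj : 2 ≤ j) (i : ℕ) : roughPart j (2 ^ i) = 1 :=
  roughPart_smooth fun q hq hd => by
    have := (Nat.prime_dvd_prime_iff_eq hq Nat.prime_two).1 (hq.dvd_of_dvd_pow hd)
    omega

/-- multiplying by a power of two and raising the level does not change a large prime rough part -/
lemma roughPart_shift {k j N P : ℕ} (hk : 2 ≤ k) (hkj : k ≤ j) (hP : P.Prime) (hjP : j < P)
    (h : roughPart k N = P) (i : ℕ) : roughPart j (N * 2 ^ i) = P := by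
  have hN : N ≠ 0 := by
    rintro rfl
    unfold roughPart at h
    simp at h
    exact hP.one_lt.ne h
  rw [roughPart_mul j hN (by positivity), roughPart_two_pow (by omega), mul_one]
  unfold roughPart at h ⊢
  set L := N.primeFactorsList with hL
  have h1 : (L.filter (fun r => k < r)).Perm [P] := by
    have := Nat.primeFactorsList_unique h (fun q hq =>
      Nat.prime_of_mem_primeFactorsList (List.mem_filter.1 hq).1)
    rwa [Nat.primeFactorsList_prime hP] at this
  have h2 : L.filter (fun r => j < r) = (L.filter (fun r => k < r)).filter (fun r => j < r) := by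
    rw [List.filter_filter]
    refine List.filter_congr fun r _ => ?_
    by_cases hr : j < r
    · have : k < r := by omega
      simp [hr, this]
    · simp [hr]
  rw [h2, (h1.filter _).prod_eq]
  simp [hjP]

/-- a block of zeros after the level `l` -/
lemma block {β : ℝ} {N l : ℕ} {δ : ℝ} (h1 : (N : ℝ) / 2 ^ l < β) (h2 : β ≤ N / 2 ^ l + δ) {j : ℕ}
    (hj : l ≤ j) (hδ : δ * 2 ^ j ≤ 1) : ⌈β * 2 ^ j⌉₊ - 1 = N * 2 ^ (j - l) := by
  have h2j : (0 : ℝ) < 2 ^ j := by positivity
  have e : (N : ℝ) / 2 ^ l * 2 ^ j = ((N * 2 ^ (j - l) : ℕ) : ℝ) := by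
    have : (2 : ℝ) ^ j = 2 ^ l * 2 ^ (j - l) := by rw [← pow_add]; congr 1; omega
    push_cast
    rw [this]
    field_simp
  have h3 : ⌈β * 2 ^ j⌉₊ = N * 2 ^ (j - l) + 1 := by
    rw [Nat.ceil_eq_iff (by omega)]
    constructor
    · rw [Nat.add_sub_cancel, ← e]
      exact mul_lt_mul_of_pos_right h1 h2j
    · have : β * 2 ^ j ≤ (N / 2 ^ l + δ) * 2 ^ j := mul_le_mul_of_nonneg_right h2 h2j.le
      push_cast at e ⊢
      rw [add_mul, e] at this
      linarith
  rw [h3, Nat.add_sub_cancel]

lemma M_mono (β : ℝ) : Monotone (M β) := by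
  intro a b hab
  unfold M
  refine Finset.card_le_card (Finset.filter_subset_filter _ ?_)
  exact Finset.range_subset_range.2 (by omega)

/-- if all primes in `(k, n]` are exponents then the count is at least `π(n) - π(k)` -/
lemma M_ge {β : ℝ} {k n : ℕ} (h : ∀ p : ℕ, p.Prime → k < p → p ≤ n → (W β p).Prime) :
    Nat.primeCounting n ≤ M β n + Nat.primeCounting k := by
  have e : ∀ m : ℕ, Nat.primeCounting m = ((Finset.range (m + 1)).filter Nat.Prime).card := by
    intro m
    rw [Nat.primeCounting, Nat.primeCounting', Nat.count_eq_card_filter_range]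
  rw [e n, e k]
  unfold M
  have hsub : (Finset.range (n + 1)).filter Nat.Prime ⊆
      ((Finset.range (n + 1)).filter (fun p => p.Prime ∧ (W β p).Prime)) ∪
        (Finset.range (k + 1)).filter Nat.Prime := by
    intro p hp
    simp only [Finset.mem_filter, Finset.mem_range, Finset.mem_union] at hp ⊢
    by_cases hk : k < p
    · exact Or.inl ⟨hp.1, hp.2, h p hp.2 hk (by omega)⟩
    · exact Or.inr ⟨by omega, hp.2⟩
  exact (Finset.card_le_card hsub).trans (Finset.card_union_le _ _)

/-! ### the prime number theorem -/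

lemma pi_ratio_tendsto {t : ℝ} (ht : 0 < t) :
    Tendsto (fun u : ℝ => (Nat.primeCounting ⌊t * u⌋₊ : ℝ) / Nat.primeCounting ⌊u⌋₊) atTop (𝓝 t) := by
  have h1 := Pool.Agent.Helper601.PNT.pi_tendsto
  have htu : Tendsto (fun u : ℝ => t * u) atTop atTop := tendsto_id.const_mul_atTop ht
  have h2 := h1.comp htu
  have h3 : Tendsto (fun u : ℝ => Real.log u / Real.log (t * u)) atTop (𝓝 1) := by
    have h4 : Tendsto (fun u : ℝ => 1 - Real.log t / Real.log (t * u)) atTop (𝓝 (1 - 0)) :=
      tendsto_const_nhds.sub ((Real.tendsto_log_atTop.comp htu).const_div_atTop _)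
    rw [sub_zero] at h4
    refine h4.congr' ?_
    filter_upwards [eventually_gt_atTop 0, (Real.tendsto_log_atTop.comp htu).eventually_gt_atTop 0]
      with u hu hl
    simp only [Function.comp] at hl
    rw [eq_div_iff hl.ne', sub_mul, one_mul, div_mul_cancel₀ _ hl.ne',
      Real.log_mul ht.ne' hu.ne']
    ring
  have h5 : Tendsto (fun u : ℝ =>
      (((Nat.primeCounting ⌊t * u⌋₊ : ℝ) * Real.log (t * u) / (t * u)) * t *
        (Real.log u / Real.log (t * u))) / ((Nat.primeCounting ⌊u⌋₊ : ℝ) * Real.log u / u))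
      atTop (𝓝 (1 * t * 1 / 1)) :=
    ((h2.mul_const t).mul h3).div h1 one_ne_zero
  rw [show (1 : ℝ) * t * 1 / 1 = t by ring] at h5
  refine h5.congr' ?_
  filter_upwards [eventually_gt_atTop 1, (Real.tendsto_log_atTop.comp htu).eventually_gt_atTop 0]
    with u hu hl
  simp only [Function.comp] at hl
  have hlu : 0 < Real.log u := Real.log_pos hu
  have hu0 : 0 < u := by linarith
  rcases eq_or_ne (Nat.primeCounting ⌊u⌋₊ : ℝ) 0 with h0 | h0
  · rw [h0]; simp
  · field_simp

/-- the ratio of the prime counting function at two proportional points -/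
lemma pi_ratio {t ε : ℝ} (ht : 0 < t) (hε : 0 < ε) : ∀ᶠ u : ℝ in atTop,
    (Nat.primeCounting ⌊t * u⌋₊ : ℝ) ≤ (t + ε) * Nat.primeCounting ⌊u⌋₊ ∧
    0 < (Nat.primeCounting ⌊u⌋₊ : ℝ) := by
  have h := (pi_ratio_tendsto ht).eventually_lt_const (show t < t + ε by linarith)
  filter_upwards [h, eventually_ge_atTop 2] with u hu hu2
  have h0 : 0 < (Nat.primeCounting ⌊u⌋₊ : ℝ) := by
    have h2 : 2 ≤ ⌊u⌋₊ := Nat.le_floor (by exact_mod_cast hu2)
    have h3 : Nat.primeCounting 2 ≤ Nat.primeCounting ⌊u⌋₊ := Nat.monotone_primeCounting h2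
    have h4 : Nat.primeCounting 2 = 1 := by decide
    have : 0 < Nat.primeCounting ⌊u⌋₊ := by omega
    exact_mod_cast this
  refine ⟨?_, h0⟩
  rw [div_lt_iff₀ h0] at hu
  exact hu.le

/-- primes between proportional points -/
lemma exists_prime {x y : ℝ} (hx : 0 < x) (hxy : x < y) : ∀ᶠ T : ℝ in atTop,
    ∃ m : ℕ, m.Prime ∧ x * T < m ∧ (m : ℝ) ≤ y * T := by
  have hy : 0 < y := by linarith
  have ht : 0 < x / y := by positivity
  have ht1 : x / y < 1 := by rw [div_lt_one hy]; exact hxy
  have h := pi_ratio (t := x / y) (ε := (1 - x / y) / 2) ht (by linarith)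
  have h2 : Tendsto (fun T : ℝ => y * T) atTop atTop := tendsto_id.const_mul_atTop hy
  filter_upwards [h2.eventually h, eventually_gt_atTop 0] with T hT hT0
  obtain ⟨h3, h4⟩ := hT
  have e : x / y * (y * T) = x * T := by field_simp
  rw [e] at h3
  by_contra hcon
  push Not at hcon
  have h5 : Nat.primeCounting ⌊y * T⌋₊ ≤ Nat.primeCounting ⌊x * T⌋₊ := by
    rw [Nat.primeCounting, Nat.primeCounting', Nat.count_eq_card_filter_range,
      Nat.primeCounting, Nat.primeCounting', Nat.count_eq_card_filter_range]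
    refine Finset.card_le_card fun p hp => ?_
    rw [Finset.mem_filter, Finset.mem_range] at hp ⊢
    refine ⟨?_, hp.2⟩
    by_contra hlt
    have h6 : x * T < p := by
      have : ⌊x * T⌋₊ < p := by omega
      exact (Nat.floor_lt (by positivity)).1 this
    have h7 := hcon p hp.2 h6
    have h8 : (p : ℝ) ≤ y * T := by
      have : p ≤ ⌊y * T⌋₊ := by omega
      exact (Nat.le_floor_iff (by positivity)).1 this
    linarith
  have h6 : (Nat.primeCounting ⌊y * T⌋₊ : ℝ) ≤ Nat.primeCounting ⌊x * T⌋₊ := by exact_mod_cast h5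
  nlinarith

/-- `π(n)` exceeds any multiple of `log n` -/
lemma pi_gt_log (C : ℝ) : ∀ᶠ n : ℕ in atTop, C * Real.log n < Nat.primeCounting n := by
  have h1 : ∀ᶠ u : ℝ in atTop, 1 / 2 < (Nat.primeCounting ⌊u⌋₊ : ℝ) * Real.log u / u :=
    Pool.Agent.Helper601.PNT.pi_tendsto.eventually_const_lt (by norm_num)
  have h2 : ∀ᶠ u : ℝ in atTop, (Real.log u) ^ 2 ≤ 1 / (2 * (|C| + 1)) * u := by
    have h3 := (Real.isLittleO_pow_log_id_atTop (n := 2)).bound
      (show (0 : ℝ) < 1 / (2 * (|C| + 1)) by positivity)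
    filter_upwards [h3, eventually_gt_atTop 0] with x hx hx0
    rw [Real.norm_eq_abs, Real.norm_eq_abs, abs_of_nonneg (by positivity)] at hx
    simpa [abs_of_pos hx0] using hx
  have h3 := tendsto_natCast_atTop_atTop.eventually (h1.and (h2.and (eventually_gt_atTop 1)))
  filter_upwards [h3] with n hn
  obtain ⟨a1, a2, a3⟩ := hn
  rw [Nat.floor_natCast] at a1
  have hn0 : (0 : ℝ) < n := by linarith
  have hl : 0 < Real.log n := Real.log_pos a3
  rw [lt_div_iff₀ hn0] at a1
  have hC : 0 < |C| + 1 := by positivity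
  have a4 : (Real.log n) ^ 2 * (2 * (|C| + 1)) ≤ n := by
    have := mul_le_mul_of_nonneg_right a2 (show (0 : ℝ) ≤ 2 * (|C| + 1) by positivity)
    calc _ ≤ 1 / (2 * (|C| + 1)) * n * (2 * (|C| + 1)) := this
      _ = n := by field_simp
  have a5 : C ≤ |C| := le_abs_self C
  by_contra hcon
  push Not at hcon
  have a6 : (Nat.primeCounting n : ℝ) * Real.log n ≤ C * Real.log n * Real.log n :=
    mul_le_mul_of_nonneg_right hcon hl.le
  have a7 : C * Real.log n * Real.log n ≤ |C| * (Real.log n) ^ 2 := by
    have := mul_le_mul_of_nonneg_right a5 (sq_nonneg (Real.log n))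
    calc C * Real.log n * Real.log n = C * (Real.log n) ^ 2 := by ring
      _ ≤ _ := this
  have a8 : 0 < (Real.log n) ^ 2 := by positivity
  have a9 : (Real.log n) ^ 2 * (2 * (|C| + 1)) = 2 * (|C| * (Real.log n) ^ 2) + 2 * (Real.log n) ^ 2 := by
    ring
  linarith

end Pool.Agent.R500.MG
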