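import Mathlib
import Pool.Agent.R500.MG.Base
import Pool.Agent.H305R2.Smooth
import Pool.Agent.H305R2.Rough

set_option autoImplicit false

/-!
# Exponents of an amplitude in base two: good levels and long blocks of zeros
-/

namespace Pool.Agent.R500.MG

open Filter Topology Set MeasureTheory
open scoped ENNReal

/-- the level `k` with value `N` is good: the rough part is a prime larger than `K k` -/
def G (K k N : ℕ) : Prop := k.Prime ∧ (roughPart k N).Prime ∧ K * k < roughPart k N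

/-- the number of integers below `Z` whose rough part is a small prime -/
lemma card_bad (K p : ℕ) {Z : ℝ} (hZ : 0 < Z) (F : Finset ℕ)
    (hF : ∀ N ∈ F, (N : ℝ) ≤ Z ∧ (roughPart p N).Prime ∧ roughPart p N ≤ K * p) :
    (F.card : ℝ) ≤ (K * p + 1) * (Z ^ (1 / 2 : ℝ) * Pool.Agent.H305R2.ZZ p) := by
  classical
  set S := Pool.Agent.H305R2.SMz p Z with hS
  have hsub : F ⊆ ((Finset.range (K * p + 1)) ×ˢ S).image (fun r : ℕ × ℕ => r.2 * r.1) := by
    intro N hN
    obtain ⟨h1, h2, h3⟩ := hF N hN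
    obtain ⟨h4, s, hs, hNs⟩ := Pool.Agent.H305R2.roughPart_prime (p := p) (m := N) h2
    have h5 : Pool.Agent.H305R2.roughPart p N = roughPart p N := rfl
    rw [h5] at h4 hNs
    rw [Finset.mem_image]
    refine ⟨(roughPart p N, s), ?_, hNs.symm⟩
    rw [Finset.mem_product, Finset.mem_range]
    refine ⟨by simpa using Nat.lt_succ_of_le h3, ?_⟩
    rw [hS, Pool.Agent.H305R2.mem_SMz hZ.le]
    refine ⟨hs, le_trans ?_ h1⟩
    have : s ≤ N := by
      rw [hNs]
      exact Nat.le_mul_of_pos_right _ h2.pos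
    exact_mod_cast this
  have h1 : F.card ≤ (K * p + 1) * S.card := by
    refine (Finset.card_le_card hsub).trans (Finset.card_image_le.trans ?_)
    rw [Finset.card_product, Finset.card_range]
  have h2 := Pool.Agent.H305R2.card_le p hZ S (fun n hn => (Pool.Agent.H305R2.mem_SMz hZ.le).1 hn)
  have h3 : (F.card : ℝ) ≤ (K * p + 1) * S.card := by exact_mod_cast h1
  refine h3.trans (mul_le_mul_of_nonneg_left h2 (by positivity))

/-- the amplitudes up to `R` for which the level `p` is an exponent with a small prime -/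
def Bad (K R p : ℕ) : Set ℝ := {β | β ∈ Ioc (0 : ℝ) R ∧ (W β p).Prime ∧ W β p ≤ K * p}

lemma vol_bad (K R p : ℕ) (hR : 0 < R) : volume (Bad K R p) ≤
    ENNReal.ofReal ((K * p + 1) * ((R * 2 ^ p : ℝ) ^ (1 / 2 : ℝ) * Pool.Agent.H305R2.ZZ p) / 2 ^ p) := by
  classical
  set F := (Finset.range (R * 2 ^ p)).filter (fun N => (roughPart p N).Prime ∧ roughPart p N ≤ K * p)
    with hF
  have h2p : (0 : ℝ) < 2 ^ p := by positivity
  have hRr : (0 : ℝ) < R := by exact_mod_cast hR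
  have hsub : Bad K R p ⊆ ⋃ N ∈ F, Ioc ((N : ℝ) / 2 ^ p) ((N + 1) / 2 ^ p) := by
    intro β hβ
    obtain ⟨⟨h0, hR'⟩, h1, h2⟩ := hβ
    have hpos : 0 < β * 2 ^ p := by positivity
    have hc : 0 < ⌈β * 2 ^ p⌉₊ := Nat.ceil_pos.2 hpos
    set N := ⌈β * 2 ^ p⌉₊ - 1 with hN
    have hN1 : N + 1 = ⌈β * 2 ^ p⌉₊ := by omega
    have hlo : (N : ℝ) < β * 2 ^ p := by
      have : N < ⌈β * 2 ^ p⌉₊ := by omega
      exact Nat.lt_ceil.1 this
    have hhi : β * 2 ^ p ≤ N + 1 := by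
      have := Nat.le_ceil (β * 2 ^ p)
      rw [← hN1] at this
      exact_mod_cast this
    rw [mem_iUnion₂]
    refine ⟨N, ?_, ?_⟩
    · rw [hF, Finset.mem_filter, Finset.mem_range]
      refine ⟨?_, h1, h2⟩
      have h3 : (N : ℝ) < R * 2 ^ p := lt_of_lt_of_le hlo (mul_le_mul_of_nonneg_right hR' h2p.le)
      exact_mod_cast h3
    · rw [mem_Ioc, div_lt_iff₀ h2p, le_div_iff₀ h2p]
      exact ⟨hlo, hhi⟩
  have hcard := card_bad K p (Z := R * 2 ^ p) (by positivity) F (fun N hN => by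
    rw [hF, Finset.mem_filter, Finset.mem_range] at hN
    refine ⟨?_, hN.2.1, hN.2.2⟩
    have : (N : ℝ) < (R * 2 ^ p : ℕ) := by exact_mod_cast hN.1
    push_cast at this
    exact this.le)
  calc volume (Bad K R p) ≤ volume (⋃ N ∈ F, Ioc ((N : ℝ) / 2 ^ p) ((N + 1) / 2 ^ p)) :=
        measure_mono hsub
    _ ≤ ∑ N ∈ F, volume (Ioc ((N : ℝ) / 2 ^ p) ((N + 1) / 2 ^ p)) := measure_biUnion_finset_le _ _
    _ = ∑ _N ∈ F, ENNReal.ofReal (1 / 2 ^ p) := by
        refine Finset.sum_congr rfl fun N _ => ?_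
        rw [Real.volume_Ioc]
        congr 1
        ring
    _ = ENNReal.ofReal (F.card * (1 / 2 ^ p)) := by
        rw [Finset.sum_const, nsmul_eq_mul, ENNReal.ofReal_mul (Nat.cast_nonneg _),
          ENNReal.ofReal_natCast]
    _ ≤ _ := by
        refine ENNReal.ofReal_le_ofReal ?_
        rw [mul_one_div]
        exact div_le_div_of_nonneg_right hcard h2p.le

lemma bad_decay (K R : ℕ) : ∀ᶠ p : ℕ in atTop,
    (K * p + 1) * ((R * 2 ^ p : ℝ) ^ (1 / 2 : ℝ) * Pool.Agent.H305R2.ZZ p) / 2 ^ p ≤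
      Real.exp (-(1 / 5 * p)) := by
  have h1 := Pool.Agent.H305R2.ZZ_le_exp (c := 1 / 20) (by norm_num)
  have h2 : ∀ᶠ p : ℕ in atTop, (K * (p : ℝ) + 1) * (R : ℝ) ^ (1 / 2 : ℝ) * Real.exp (-(1 / 20 * p)) ≤ 1 := by
    have h3 : Tendsto (fun x : ℝ => (K * x + 1) * (R : ℝ) ^ (1 / 2 : ℝ) * Real.exp (-(1 / 20 * x)))
        atTop (𝓝 0) := by
      have h4 : Tendsto (fun x : ℝ => 1 / 20 * x) atTop atTop :=
        tendsto_id.const_mul_atTop (by norm_num)
      have h5 := (Real.tendsto_pow_mul_exp_neg_atTop_nhds_zero 1).comp h4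
      have h6 := (Real.tendsto_pow_mul_exp_neg_atTop_nhds_zero 0).comp h4
      have h7 := ((h5.const_mul (20 * K * (R : ℝ) ^ (1 / 2 : ℝ))).add
        (h6.const_mul ((R : ℝ) ^ (1 / 2 : ℝ))))
      simp only [mul_zero, add_zero] at h7
      refine h7.congr fun x => ?_
      simp only [Function.comp, pow_one, pow_zero, one_mul]
      ring
    have h8 := h3.eventually_lt_const (zero_lt_one)
    exact (tendsto_natCast_atTop_atTop.eventually h8).mono fun p hp => hp.le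
  filter_upwards [h1, h2] with p hp1 hp2
  have h2p : (0 : ℝ) < 2 ^ p := by positivity
  have hR : (0 : ℝ) ≤ (R : ℝ) ^ (1 / 2 : ℝ) := by positivity
  have e1 : (R * 2 ^ p : ℝ) ^ (1 / 2 : ℝ) = (R : ℝ) ^ (1 / 2 : ℝ) * ((2 : ℝ) ^ p) ^ (1 / 2 : ℝ) :=
    Real.mul_rpow (Nat.cast_nonneg _) h2p.le
  have e2 : ((2 : ℝ) ^ p) ^ (1 / 2 : ℝ) / 2 ^ p = Real.exp (-(Real.log 2 / 2 * p)) := by
    have e3 : (2 : ℝ) ^ p = Real.exp (Real.log 2 * p) := by
      rw [mul_comm, Real.exp_nat_mul, Real.exp_log two_pos]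
    rw [e3, ← Real.exp_mul, ← Real.exp_sub]
    congr 1
    ring
  have e4 : Real.exp (-(Real.log 2 / 2 * p)) * Real.exp (1 / 20 * p) ≤
      Real.exp (-(1 / 20 * p)) * Real.exp (-(1 / 5 * p)) := by
    rw [← Real.exp_add, ← Real.exp_add]
    apply Real.exp_le_exp.2
    have h3 := Real.log_two_gt_d9
    have h4 : (0 : ℝ) ≤ p := Nat.cast_nonneg p
    nlinarith
  have hA : 0 ≤ (K * (p : ℝ) + 1) * (R : ℝ) ^ (1 / 2 : ℝ) := by positivity
  calc (K * p + 1) * ((R * 2 ^ p : ℝ) ^ (1 / 2 : ℝ) * Pool.Agent.H305R2.ZZ p) / 2 ^ p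
      = (K * (p : ℝ) + 1) * (R : ℝ) ^ (1 / 2 : ℝ) * ((((2 : ℝ) ^ p) ^ (1 / 2 : ℝ) / 2 ^ p) *
          Pool.Agent.H305R2.ZZ p) := by rw [e1]; ring
    _ ≤ (K * (p : ℝ) + 1) * (R : ℝ) ^ (1 / 2 : ℝ) * (Real.exp (-(Real.log 2 / 2 * p)) *
          Real.exp (1 / 20 * p)) := by
        rw [e2]
        gcongr
    _ ≤ (K * (p : ℝ) + 1) * (R : ℝ) ^ (1 / 2 : ℝ) * (Real.exp (-(1 / 20 * p)) *
          Real.exp (-(1 / 5 * p))) := mul_le_mul_of_nonneg_left e4 hA
    _ = ((K * (p : ℝ) + 1) * (R : ℝ) ^ (1 / 2 : ℝ) * Real.exp (-(1 / 20 * p))) *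
          Real.exp (-(1 / 5 * p)) := by ring
    _ ≤ 1 * Real.exp (-(1 / 5 * p)) := mul_le_mul_of_nonneg_right hp2 (Real.exp_pos _).le
    _ = _ := one_mul _

/-- almost surely small primes occur finitely often -/
lemma ae_bad (K : ℕ) : ∀ᵐ β : ℝ, 0 < β → ∀ᶠ p : ℕ in atTop, ¬ ((W β p).Prime ∧ W β p ≤ K * p) := by
  have h : ∀ R : ℕ, ∀ᵐ β : ℝ, 0 < R → ∀ᶠ p : ℕ in atTop, β ∉ Bad K R p := by
    intro R
    rcases Nat.eq_zero_or_pos R with h0 | h0
    · exact Eventually.of_forall fun β h1 => by omega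
    · obtain ⟨P, hP⟩ := eventually_atTop.1 (bad_decay K R)
      have hsum : Summable (fun p : ℕ => Real.exp (-(1 / 5 * p))) := by
        have : Summable (fun p : ℕ => (Real.exp (-(1 / 5))) ^ p) :=
          summable_geometric_of_lt_one (Real.exp_pos _).le (by
            rw [← Real.exp_zero]
            exact Real.exp_lt_exp.2 (by norm_num))
        refine this.congr fun p => ?_
        rw [← Real.exp_nat_mul]
        congr 1
        ring
      have h1 : ∑' p : ℕ, volume (if P ≤ p then Bad K R p else ∅) ≠ ⊤ := by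
        refine ne_top_of_le_ne_top (ENNReal.ofReal_ne_top (r := ∑' p : ℕ, Real.exp (-(1 / 5 * p)))) ?_
        rw [ENNReal.ofReal_tsum_of_nonneg (fun p => (Real.exp_pos _).le) hsum]
        refine ENNReal.tsum_le_tsum fun p => ?_
        split_ifs with h2
        · exact (vol_bad K R p h0).trans (ENNReal.ofReal_le_ofReal (hP p h2))
        · simp
      filter_upwards [ae_eventually_notMem h1] with β hβ _
      filter_upwards [hβ, eventually_ge_atTop P] with p hp hpP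
      rwa [if_pos hpP] at hp
  filter_upwards [ae_all_iff.2 h] with β hβ h0
  obtain ⟨R, hR⟩ := exists_nat_ge β
  have hR0 : 0 < R := by
    have : (0 : ℝ) < R := lt_of_lt_of_le h0 hR
    exact_mod_cast this
  filter_upwards [hβ R hR0] with p hp hcon
  exact hp ⟨⟨h0, hR⟩, hcon.1, hcon.2⟩

/-- a block of zeros after a good level: all primes in the block are exponents -/
lemma window {K k N n : ℕ} {β δ : ℝ} (hG : G K k N) (h1 : (N : ℝ) / 2 ^ k < β)
    (h2 : β ≤ N / 2 ^ k + δ) (hδ0 : 0 ≤ δ) (hδ : δ * 2 ^ n ≤ 1) (hn : n ≤ K * k) {p : ℕ} (hp : p.Prime)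
    (hkp : k < p) (hpn : p ≤ n) : (W β p).Prime := by
  have _ := hp
  obtain ⟨g1, g2, g3⟩ := hG
  have h3 := block h1 h2 hkp.le (by
    refine le_trans ?_ hδ
    exact mul_le_mul_of_nonneg_left (pow_le_pow_right₀ (by norm_num) hpn) hδ0)
  unfold W
  rw [h3, roughPart_shift g1.two_le hkp.le g2 (by omega) rfl]
  exact g2

/-- long blocks of zeros after good levels produce many exponents -/
lemma point {t L β : ℝ} {K : ℕ} (ht0 : 0 < t) (hL : 0 < L) (hK : 1 / t < K)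
    (h : ∃ᶠ k : ℕ in atTop, ∃ N : ℕ, G K k N ∧ (N : ℝ) / 2 ^ k < β ∧
      β < N / 2 ^ k + 2 * (L * (2 / (L * 2 ^ k)) ^ (1 / t))) {ε : ℝ} (hε : 0 < ε) :
    ∃ᶠ n : ℕ in atTop, (1 - t - ε) * Nat.primeCounting n < M β n := by
  set τ := t + ε / 4 with hτ
  have hτ0 : 0 < τ := by positivity
  have hτt : t < τ := by rw [hτ]; linarith
  have hinv : 1 / τ < 1 / t := one_div_lt_one_div_of_lt ht0 hτt
  -- conditions on `k`
  have hdiv : Tendsto (fun k : ℕ => (k : ℝ) / τ) atTop atTop :=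
    tendsto_natCast_atTop_atTop.atTop_div_const hτ0
  have c1 := hdiv.eventually (pi_ratio (t := τ) (ε := ε / 4) hτ0 (by linarith))
  have c2 : ∀ᶠ k : ℕ in atTop, 2 * (L * (2 / (L * 2 ^ k)) ^ (1 / t)) * 2 ^ ⌊(k : ℝ) / τ⌋₊ ≤ 1 := by
    have hlin : ∀ᶠ k : ℕ in atTop, Real.log (2 * (L * (2 / L) ^ (1 / t))) ≤
        (Real.log 2 * (1 / t - 1 / τ)) * k :=
      (tendsto_natCast_atTop_atTop.const_mul_atTop (mul_pos (Real.log_pos (by norm_num))
        (by linarith))).eventually_ge_atTop _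
    filter_upwards [hlin] with k hk
    have e1 : (2 / (L * 2 ^ k)) ^ (1 / t) = (2 / L) ^ (1 / t) * Real.exp (-(Real.log 2 * (1 / t) * k)) := by
      have e2 : (2 / (L * 2 ^ k)) = (2 / L) * Real.exp (-(Real.log 2 * k)) := by
        rw [Real.exp_neg, mul_comm (Real.log 2), Real.exp_nat_mul, Real.exp_log two_pos]
        field_simp
      rw [e2, Real.mul_rpow (by positivity) (Real.exp_pos _).le, ← Real.exp_mul]
      congr 2
      ring
    have e3 : (2 : ℝ) ^ ⌊(k : ℝ) / τ⌋₊ ≤ Real.exp (Real.log 2 * (1 / τ) * k) := by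
      have h1 : ((⌊(k : ℝ) / τ⌋₊ : ℕ) : ℝ) ≤ k / τ := Nat.floor_le (by positivity)
      calc (2 : ℝ) ^ ⌊(k : ℝ) / τ⌋₊ = Real.exp (⌊(k : ℝ) / τ⌋₊ * Real.log 2) := by
            rw [Real.exp_nat_mul, Real.exp_log two_pos]
        _ ≤ Real.exp (k / τ * Real.log 2) := by
            apply Real.exp_le_exp.2
            exact mul_le_mul_of_nonneg_right h1 (Real.log_nonneg (by norm_num))
        _ = _ := by congr 1; ring
    have hA : 0 < 2 * (L * (2 / L) ^ (1 / t)) := by positivity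
    rw [e1]
    calc 2 * (L * ((2 / L) ^ (1 / t) * Real.exp (-(Real.log 2 * (1 / t) * k)))) * 2 ^ ⌊(k : ℝ) / τ⌋₊
        ≤ 2 * (L * ((2 / L) ^ (1 / t) * Real.exp (-(Real.log 2 * (1 / t) * k)))) *
          Real.exp (Real.log 2 * (1 / τ) * k) := by gcongr
      _ = Real.exp (Real.log (2 * (L * (2 / L) ^ (1 / t)))) *
          (Real.exp (-(Real.log 2 * (1 / t) * k)) * Real.exp (Real.log 2 * (1 / τ) * k)) := by
          rw [Real.exp_log hA]; ring
      _ = Real.exp (Real.log (2 * (L * (2 / L) ^ (1 / t))) - (Real.log 2 * (1 / t - 1 / τ)) * k) := by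
          rw [← Real.exp_add, ← Real.exp_add]
          congr 1
          ring
      _ ≤ 1 := by
          rw [Real.exp_le_one_iff]
          linarith
  rw [frequently_atTop]
  intro N0
  have c3 : ∀ᶠ k : ℕ in atTop, (N0 : ℝ) ≤ (k : ℝ) / τ := hdiv.eventually_ge_atTop _
  obtain ⟨k, ⟨N, hG, h1, h2⟩, ⟨a1, a2⟩, a3, a4⟩ := (h.and_eventually (c1.and (c2.and c3))).exists
  set n := ⌊(k : ℝ) / τ⌋₊ with hn
  have hn0 : (0 : ℝ) ≤ (k : ℝ) / τ := by positivity
  refine ⟨n, Nat.le_floor a4, ?_⟩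
  have hδ0 : 0 ≤ 2 * (L * (2 / (L * 2 ^ k)) ^ (1 / t)) := by positivity
  have hnK : n ≤ K * k := by
    have h3 : (n : ℝ) ≤ k / τ := Nat.floor_le hn0
    have h4 : (k : ℝ) / τ ≤ K * k := by
      rw [div_eq_mul_one_div, mul_comm (K : ℝ)]
      exact mul_le_mul_of_nonneg_left (by linarith) (Nat.cast_nonneg k)
    exact_mod_cast h3.trans h4
  have h5 := M_ge (β := β) (k := k) (n := n) (fun p hp hkp hpn =>
    window hG h1 h2.le hδ0 a3 hnK hp hkp hpn)
  have h6 : τ * ((k : ℝ) / τ) = k := by field_simp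
  rw [h6, Nat.floor_natCast] at a1
  have h7 : (Nat.primeCounting n : ℝ) ≤ M β n + Nat.primeCounting k := by exact_mod_cast h5
  have h8 : (0 : ℝ) < ε / 2 * Nat.primeCounting n := by positivity
  have h9 : (τ + ε / 4) * (Nat.primeCounting n : ℝ) = (t + ε / 2) * Nat.primeCounting n := by
    rw [hτ]; ring
  have h10 : (1 - t - ε) * (Nat.primeCounting n : ℝ) = Nat.primeCounting n -
      (t + ε / 2) * Nat.primeCounting n - ε / 2 * Nat.primeCounting n := by ring
  rw [h10]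
  linarith

end Pool.Agent.R500.MG
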