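import Mathlib
import Pool.Agent.R500.MG.Base
import Pool.Agent.H398R2.RK.Rec3

set_option autoImplicit false

/-!
# Windows without primes of length `24 log t` in `[t, 3 t]`

Rankin's choice of residue classes is `Pool.Agent.H398R2.RK.rsurv`.
-/

namespace Pool.Agent.R500.MG

open Filter Topology

open Classical in
/-- Rankin's classes: fewer survivors than primes in `(y, 2 y]` -/
lemma surv_small (A : ℕ) (hA : 1 ≤ A) : ∃ y0 : ℕ, ∀ y ≥ y0, ∃ b : ℕ → ℕ,
    (∀ p : ℕ, p.Prime → p ≤ y → b p < p) ∧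
    ((Finset.range (A * y + 1)).filter (fun k => ∀ p : ℕ, p.Prime → p ≤ y →
      ¬ k ≡ b p [MOD p])).card ≤ ((Finset.Ioc y (2 * y)).filter Nat.Prime).card := by
  obtain ⟨C, hC, y1, h⟩ := Pool.Agent.H398R2.RK.rsurv 0
  have hAr : (1 : ℝ) ≤ A := by exact_mod_cast hA
  have hl := Real.tendsto_log_atTop
  have hn : Tendsto (fun y : ℕ => (y : ℝ)) atTop atTop := tendsto_natCast_atTop_atTop
  have hl1 : Tendsto (fun y : ℕ => Real.log y) atTop atTop := hl.comp hn
  have hl2 : Tendsto (fun y : ℕ => Real.log (Real.log y)) atTop atTop := hl.comp hl1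
  have hl3 : Tendsto (fun y : ℕ => Real.log (Real.log (Real.log y))) atTop atTop := hl.comp hl2
  have c1 : ∀ᶠ y : ℕ in atTop, (Real.log (Real.log y)) ^ 2 ≤ 1 / (8 * C * A) * Real.log y := by
    have h3 := (Real.isLittleO_pow_log_id_atTop (n := 2)).bound
      (show (0 : ℝ) < 1 / (8 * C * A) by positivity)
    have h4 : ∀ᶠ x : ℝ in atTop, (Real.log x) ^ 2 ≤ 1 / (8 * C * A) * x := by
      filter_upwards [h3, eventually_gt_atTop 0] with x hx hx0
      rw [Real.norm_eq_abs, Real.norm_eq_abs, abs_of_nonneg (by positivity)] at hx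
      simpa [abs_of_pos hx0] using hx
    exact hl1.eventually h4
  have c2 : ∀ᶠ y : ℕ in atTop, (A : ℝ) ≤ (Real.log y) ^ 2 := by
    filter_upwards [hl1.eventually_ge_atTop (A : ℝ)] with y hy
    nlinarith
  have h2n : Tendsto (fun y : ℕ => 2 * (y : ℝ)) atTop atTop := hn.const_mul_atTop (by norm_num)
  have c3 := h2n.eventually (pi_ratio (t := 1 / 2) (ε := 1 / 4) (by norm_num) (by norm_num))
  have c4 := h2n.eventually (Pool.Agent.Helper601.PNT.pi_tendsto.eventually_const_lt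
    (show (1 / 2 : ℝ) < 1 by norm_num))
  obtain ⟨y2, hy2⟩ := eventually_atTop.1 (c1.and (c2.and (c3.and (c4.and
    ((hl1.eventually_ge_atTop 1).and (hl3.eventually_ge_atTop 1))))))
  refine ⟨max (max y1 y2) 2, fun y hy => ?_⟩
  obtain ⟨a1, a2, ⟨a3, _⟩, a4, a5, a6⟩ := hy2 y (by omega)
  have hy1 : y1 ≤ y := by omega
  have hyy : 2 ≤ y := by omega
  have hyr : (2 : ℝ) ≤ y := by exact_mod_cast hyy
  obtain ⟨b, hb1, hb2⟩ := h y hy1 ∅ 1 (by simp) (by simp only [Finset.sum_empty]; positivity) (Or.inl rfl)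
    (A * y) (by nlinarith) (by
      push_cast
      have : (A : ℝ) * y ≤ (Real.log y) ^ 2 * y := mul_le_mul_of_nonneg_right a2 (by positivity)
      linarith) (fun i => i.elim0) (fun j => j.elim0)
  refine ⟨b, fun p hp hpy => (hb1 p hp hpy (by simp) hp.one_lt.ne').1, ?_⟩
  have hsub : ((Finset.range (A * y + 1)).filter (fun k => ∀ p : ℕ, p.Prime → p ≤ y →
      ¬ k ≡ b p [MOD p])) ⊆ ((Finset.range (A * y + 1)).filter (fun k => (∀ j : Fin 0,
      k ≠ (fun i : Fin 0 => (i.elim0 : ℕ)) j) ∧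
        ∀ p : ℕ, p.Prime → p ≤ y → p ∉ (∅ : Finset ℕ) → p ≠ 1 → ¬ k ≡ b p [MOD p])) := by
    intro k hk
    rw [Finset.mem_filter] at hk ⊢
    exact ⟨hk.1, fun j => j.elim0, fun p hp hpy _ _ => hk.2 p hp hpy⟩
  have hcard : (((Finset.range (A * y + 1)).filter (fun k => ∀ p : ℕ, p.Prime → p ≤ y →
      ¬ k ≡ b p [MOD p])).card : ℝ) ≤ C * (A * y : ℕ) * (Real.log (Real.log y)) ^ 2 /
        ((Real.log y) ^ 2 * Real.log (Real.log (Real.log y))) := by
    refine le_trans ?_ hb2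
    exact_mod_cast Finset.card_le_card hsub
  -- the primes in `(y, 2 y]`
  have e : ∀ m : ℕ, Nat.primeCounting m = ((Finset.range (m + 1)).filter Nat.Prime).card := by
    intro m
    rw [Nat.primeCounting, Nat.primeCounting', Nat.count_eq_card_filter_range]
  have hsplit : Nat.primeCounting (2 * y) ≤
      ((Finset.Ioc y (2 * y)).filter Nat.Prime).card + Nat.primeCounting y := by
    rw [e, e]
    have hs : (Finset.range (2 * y + 1)).filter Nat.Prime ⊆
        ((Finset.Ioc y (2 * y)).filter Nat.Prime) ∪ (Finset.range (y + 1)).filter Nat.Prime := by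
      intro p hp
      simp only [Finset.mem_filter, Finset.mem_range, Finset.mem_union, Finset.mem_Ioc] at hp ⊢
      by_cases hk : y < p
      · exact Or.inl ⟨⟨hk, by omega⟩, hp.2⟩
      · exact Or.inr ⟨by omega, hp.2⟩
    exact (Finset.card_le_card hs).trans (Finset.card_union_le _ _)
  have hsplit' : (Nat.primeCounting (2 * y) : ℝ) ≤
      ((Finset.Ioc y (2 * y)).filter Nat.Prime).card + Nat.primeCounting y := by
    exact_mod_cast hsplit
  rw [show (1 / 2 : ℝ) * (2 * y) = (y : ℝ) by ring, Nat.floor_natCast,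
    show (2 : ℝ) * y = ((2 * y : ℕ) : ℝ) by push_cast; ring, Nat.floor_natCast] at a3
  rw [show (2 : ℝ) * y = ((2 * y : ℕ) : ℝ) by push_cast; ring, Nat.floor_natCast] at a4
  have hlog2 : Real.log ((2 * y : ℕ) : ℝ) ≤ 2 * Real.log y := by
    calc Real.log ((2 * y : ℕ) : ℝ) ≤ Real.log ((y : ℝ) * y) :=
          Real.log_le_log (by positivity) (by push_cast; nlinarith)
      _ = 2 * Real.log y := by rw [Real.log_mul (by positivity) (by positivity)]; ring
  have hl0 : 0 < Real.log ((2 * y : ℕ) : ℝ) := Real.log_pos (by push_cast; linarith)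
  have hpi : (y : ℝ) / (2 * Real.log y) ≤ Nat.primeCounting (2 * y) := by
    rw [div_le_iff₀ (by positivity)]
    rw [lt_div_iff₀ (by positivity)] at a4
    have h5 : (Nat.primeCounting (2 * y) : ℝ) * Real.log ((2 * y : ℕ) : ℝ) ≤
        Nat.primeCounting (2 * y) * (2 * Real.log y) :=
      mul_le_mul_of_nonneg_left hlog2 (Nat.cast_nonneg _)
    push_cast at a4 h5 ⊢
    linarith
  have hQ : (y : ℝ) / (8 * Real.log y) ≤ ((Finset.Ioc y (2 * y)).filter Nat.Prime).card := by
    have h6 : (y : ℝ) / (8 * Real.log y) = (y : ℝ) / (2 * Real.log y) / 4 := by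
      field_simp
      norm_num
    rw [h6]
    norm_num at a3
    linarith
  have hfin : C * (A * y : ℕ) * (Real.log (Real.log y)) ^ 2 /
        ((Real.log y) ^ 2 * Real.log (Real.log (Real.log y))) ≤ (y : ℝ) / (8 * Real.log y) := by
    rw [div_le_div_iff₀ (by positivity) (by positivity)]
    push_cast
    have h7 : (Real.log (Real.log y)) ^ 2 * (8 * C * A) ≤ Real.log y := by
      have := mul_le_mul_of_nonneg_right a1 (show (0 : ℝ) ≤ 8 * C * A by positivity)
      calc _ ≤ 1 / (8 * C * A) * Real.log y * (8 * C * A) := this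
        _ = Real.log y := by field_simp
    calc C * (A * y) * (Real.log (Real.log y)) ^ 2 * (8 * Real.log y)
        = y * Real.log y * ((Real.log (Real.log y)) ^ 2 * (8 * C * A)) := by ring
      _ ≤ y * Real.log y * Real.log y := mul_le_mul_of_nonneg_left h7 (by positivity)
      _ = y * (Real.log y ^ 2 * 1) := by ring
      _ ≤ y * (Real.log y ^ 2 * Real.log (Real.log (Real.log y))) := by gcongr
  exact_mod_cast hcard.trans (hfin.trans hQ)

/-- covering an interval by the primes up to `2 y` -/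
lemma cover (A : ℕ) (hA : 1 ≤ A) : ∃ y0 : ℕ, ∀ y ≥ y0, ∃ n0 : ℕ, ∀ k ≤ A * y,
    ∃ p : ℕ, p.Prime ∧ p ≤ 2 * y ∧ p ∣ n0 + k := by
  classical
  obtain ⟨y0, h⟩ := surv_small A hA
  refine ⟨y0, fun y hy => ?_⟩
  obtain ⟨b, hb1, hb2⟩ := h y hy
  set R := (Finset.range (A * y + 1)).filter (fun k => ∀ p : ℕ, p.Prime → p ≤ y →
      ¬ k ≡ b p [MOD p]) with hR
  set Q := (Finset.Ioc y (2 * y)).filter Nat.Prime with hQ
  obtain ⟨e⟩ : Nonempty (R ↪ Q) := by
    apply Function.Embedding.nonempty_of_card_le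
    simpa using hb2
  set r : ℕ → ℕ := fun q => if hq : ∃ x : R, (e x : ℕ) = q then ((Classical.choose hq : R) : ℕ) else 0
    with hr
  have hre : ∀ x : R, r (e x : ℕ) = x := by
    intro x
    have hq : ∃ x' : R, (e x' : ℕ) = (e x : ℕ) := ⟨x, rfl⟩
    simp only [hr]
    rw [dif_pos hq]
    have h1 := Classical.choose_spec hq
    have h2 : e (Classical.choose hq) = e x := Subtype.ext h1
    rw [e.injective h2]
  set T := (Finset.range (2 * y + 1)).filter Nat.Prime with hT
  set a : ℕ → ℕ := fun p => if p ≤ y then p - b p else p * (A * y) - r p with ha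
  have hs : ∀ i ∈ T, (fun p : ℕ => p) i ≠ 0 := fun i hi => (Finset.mem_filter.1 hi).2.ne_zero
  have hpp : Set.Pairwise (↑T) (Function.onFun Nat.Coprime (fun p : ℕ => p)) := by
    intro p hp q hq hne
    exact (Nat.coprime_primes (Finset.mem_filter.1 hp).2 (Finset.mem_filter.1 hq).2).2 hne
  obtain ⟨n0, hn0⟩ := Nat.chineseRemainderOfFinset a (fun p => p) T hs hpp
  refine ⟨n0, fun k hk => ?_⟩
  by_cases hkR : k ∈ R
  · have hq := (e ⟨k, hkR⟩).2
    set q : ℕ := (e ⟨k, hkR⟩ : ℕ) with hqd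
    have hrq : r q = k := hre ⟨k, hkR⟩
    rw [hQ, Finset.mem_filter, Finset.mem_Ioc] at hq
    obtain ⟨⟨h1, h2⟩, h3⟩ := hq
    refine ⟨q, h3, h2, ?_⟩
    have h4 := hn0 q (Finset.mem_filter.2 ⟨Finset.mem_range.2 (by omega), h3⟩)
    have h5 : a q = q * (A * y) - k := by
      simp only [ha]
      rw [if_neg (by omega), hrq]
    rw [h5] at h4
    have h6 : k ≤ q * (A * y) := hk.trans (Nat.le_mul_of_pos_left _ h3.pos)
    have h7 := h4.add_right k
    rw [Nat.sub_add_cancel h6] at h7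
    exact (Nat.modEq_zero_iff_dvd).1 (h7.trans ((Nat.modEq_zero_iff_dvd).2 (dvd_mul_right _ _)))
  · rw [hR, Finset.mem_filter] at hkR
    push Not at hkR
    obtain ⟨p, hp, hpy, hpk⟩ := hkR (Finset.mem_range.2 (by omega))
    refine ⟨p, hp, by omega, ?_⟩
    have h4 := hn0 p (Finset.mem_filter.2 ⟨Finset.mem_range.2 (by omega), hp⟩)
    have h5 : a p = p - b p := by
      simp only [ha]
      rw [if_pos hpy]
    rw [h5] at h4
    have h7 := h4.add hpk
    rw [Nat.sub_add_cancel (hb1 p hp hpy).le] at h7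
    exact (Nat.modEq_zero_iff_dvd).1 (h7.trans ((Nat.modEq_zero_iff_dvd).2 dvd_rfl))

/-- runs of composite numbers of length `24 log t` in `[t, 3 t]` -/
theorem run : ∃ T1 : ℕ, ∀ t ≥ T1, ∃ x : ℕ, t ≤ x ∧ x ≤ 2 * t ∧
    ∀ k : ℕ, 1 ≤ k → (k : ℝ) ≤ 24 * Real.log t → ¬ (x + k).Prime := by
  obtain ⟨y0, h⟩ := cover 100 (by norm_num)
  have hl1 : Tendsto (fun t : ℕ => Real.log t) atTop atTop :=
    Real.tendsto_log_atTop.comp tendsto_natCast_atTop_atTop
  obtain ⟨T1, hT1⟩ := eventually_atTop.1 ((hl1.eventually_ge_atTop (3 * (y0 + 1) : ℝ)).and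
    ((hl1.eventually_ge_atTop 20).and (eventually_ge_atTop 2)))
  refine ⟨T1, fun t ht => ?_⟩
  obtain ⟨b1, b2, b3⟩ := hT1 t ht
  have ht0 : (0 : ℝ) < t := by exact_mod_cast (by omega : 0 < t)
  set y := ⌊Real.log t / 3⌋₊ with hy
  have hy1 : (y : ℝ) ≤ Real.log t / 3 := Nat.floor_le (by linarith)
  have hy2 : Real.log t / 3 < y + 1 := Nat.lt_floor_add_one _
  have hyy0 : y0 ≤ y := by
    have : (y0 : ℝ) < y + 1 := by linarith
    have h2 : y0 < y + 1 := by exact_mod_cast this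
    omega
  obtain ⟨n0, hn0⟩ := h y hyy0
  set P := primorial (2 * y) with hP
  have hP0 : 0 < P := primorial_pos _
  have hPt : P ≤ t := by
    have h1 : (P : ℝ) ≤ (4 : ℝ) ^ (2 * y) := by exact_mod_cast primorial_le_four_pow (2 * y)
    have h2 : (4 : ℝ) ^ (2 * y) = Real.exp (((2 * y : ℕ) : ℝ) * Real.log 4) := by
      rw [Real.exp_nat_mul, Real.exp_log (by norm_num)]
    have h3 : Real.log 4 = 2 * Real.log 2 := by
      rw [show (4 : ℝ) = 2 ^ 2 by norm_num, Real.log_pow]
      push_cast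
      ring
    have h4 : ((2 * y : ℕ) : ℝ) * Real.log 4 ≤ Real.log t := by
      rw [h3]
      push_cast
      have h5 := Real.log_two_lt_d9
      have h6 : 0 < Real.log 2 := Real.log_pos (by norm_num)
      have h7 : (0 : ℝ) ≤ y := Nat.cast_nonneg y
      nlinarith
    have h5 : (P : ℝ) ≤ t := by
      rw [h2] at h1
      refine h1.trans ((Real.exp_le_exp.2 h4).trans ?_)
      rw [Real.exp_log ht0]
    exact_mod_cast h5
  set x := t + (n0 + t * (P - 1)) % P with hx
  have hmod : (n0 + t * (P - 1)) % P < P := Nat.mod_lt _ hP0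
  refine ⟨x, by omega, by omega, fun k hk1 hk2 hprime => ?_⟩
  have hky : k ≤ 100 * y := by
    have : (k : ℝ) ≤ 100 * y := by linarith
    exact_mod_cast this
  obtain ⟨p, hp, hp2, hpd⟩ := hn0 k hky
  have hpP : p ∣ P := by
    rw [hP, primorial]
    exact Finset.dvd_prod_of_mem _ (Finset.mem_filter.2 ⟨Finset.mem_range.2 (by omega), hp⟩)
  have hxn : x ≡ n0 [MOD P] := by
    have h1 : (n0 + t * (P - 1)) % P ≡ n0 + t * (P - 1) [MOD P] := Nat.mod_modEq _ _
    have h2 : x ≡ t + (n0 + t * (P - 1)) [MOD P] := Nat.ModEq.add_left t h1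
    have h3 : t + (n0 + t * (P - 1)) = n0 + P * t := by
      obtain ⟨P', hP'⟩ : ∃ P', P = P' + 1 := ⟨P - 1, by omega⟩
      rw [hP', Nat.add_sub_cancel]
      ring
    rw [h3] at h2
    refine h2.trans ?_
    have h4 : P * t ≡ 0 [MOD P] := (Nat.modEq_zero_iff_dvd).2 (dvd_mul_right _ _)
    simpa using Nat.ModEq.add_left n0 h4
  have hdx : p ∣ x + k := by
    have h1 : x + k ≡ n0 + k [MOD p] := (hxn.add_right k).of_dvd hpP
    exact (Nat.modEq_zero_iff_dvd).1 (h1.trans ((Nat.modEq_zero_iff_dvd).2 hpd))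
  have hpx : p = x + k := (Nat.prime_dvd_prime_iff_eq hp hprime).1 hdx
  have h8 : (x : ℝ) + k ≤ 2 * (Real.log t / 3) := by
    have h9 : ((x + k : ℕ) : ℝ) ≤ ((2 * y : ℕ) : ℝ) := by exact_mod_cast hpx ▸ hp2
    push_cast at h9
    linarith
  have h9 : Real.log t ≤ t := by
    have := Real.log_le_sub_one_of_pos ht0
    linarith
  have h10 : (t : ℝ) ≤ x := by exact_mod_cast (by omega : t ≤ x)
  have h11 : (0 : ℝ) ≤ k := Nat.cast_nonneg k
  linarith

end Pool.Agent.R500.MG
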