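import Mathlib
import Pool.Agent.R500.MG.Base
import Pool.Agent.R500.MG.Cover

set_option autoImplicit false

/-!
# Amplitudes with finitely many exponents

The construction: the value at the end of a window without primes is divisible by the square of a
large prime; then follow zeros up to the next long window without primes (large gaps between primes,
`Pool.Agent.R500.MG.run`), in which the digits are chosen so that the new value is
divisible by the square of a new larger prime.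
-/

namespace Pool.Agent.R500.MG

open Filter Topology Set

lemma roughPart_self_prime {p q : ℕ} (hq : q.Prime) (h : p < q) : roughPart p q = q := by
  unfold roughPart
  rw [Nat.primeFactorsList_prime hq]
  simp [h]

lemma not_prime_rough {p q m : ℕ} (hq : q.Prime) (h : p < q) (hd : q ^ 2 ∣ m) (hm : m ≠ 0) :
    ¬ (roughPart p m).Prime := by
  obtain ⟨s, rfl⟩ := hd
  have hs : s ≠ 0 := by rintro rfl; simp at hm
  have hq0 : q ≠ 0 := hq.ne_zero
  rw [roughPart_mul p (pow_ne_zero 2 hq0) hs, sq, roughPart_mul p hq0 hq0,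
    roughPart_self_prime hq h, mul_assoc]
  refine Nat.not_prime_mul hq.one_lt.ne' ?_
  intro h1
  have := Nat.eq_one_of_mul_eq_one_right h1
  exact hq.one_lt.ne' this

/-- windows without primes, long enough for the square of a large prime -/
lemma windows : ∃ T0 : ℕ, 3 ≤ T0 ∧ ∀ t ≥ T0, ∃ t' x : ℕ, t ≤ x ∧ x < t' ∧ t' ≤ t ^ 2 ∧
    (∀ p, x < p → p ≤ t' → ¬ p.Prime) ∧
    ∃ q : ℕ, q.Prime ∧ t' ^ 2 < q ∧ 2 * q ^ 2 + 2 ≤ 2 ^ (t' - x) := by
  obtain ⟨T1, hT1⟩ := run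
  refine ⟨max T1 30, by omega, fun t ht => ?_⟩
  have ht30 : 30 ≤ t := (le_max_right _ _).trans ht
  obtain ⟨x, hx1, hx2, hx3⟩ := hT1 t ((le_max_left _ _).trans ht)
  have ht3r : (30 : ℝ) ≤ t := by exact_mod_cast ht30
  set j := 8 * (Nat.log 2 t + 1) + 4 with hj
  have hlogt : 1 ≤ Real.log t := by
    have h3 : Real.exp 1 ≤ t := by
      have := Real.exp_one_lt_d9
      linarith
    rw [← Real.log_exp 1]
    exact Real.log_le_log (Real.exp_pos _) h3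
  have hjr : (j : ℝ) ≤ 24 * Real.log t := by
    have h3 : (Nat.log 2 t : ℝ) ≤ Real.log t / Real.log 2 := by
      have := Real.natLog_le_logb t 2
      rwa [Real.logb] at this
    have h4 : Real.log t / Real.log 2 ≤ Real.log t / (2 / 3) := by
      refine div_le_div_of_nonneg_left (by linarith) (by norm_num) ?_
      have := Real.log_two_gt_d9
      linarith
    rw [hj]
    push_cast
    linarith
  have hjt : j ≤ 28 * t := by
    have h5 : Real.log t ≤ t := by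
      have := Real.log_le_sub_one_of_pos (show (0 : ℝ) < t by linarith)
      linarith
    have : (j : ℝ) ≤ ((28 * t : ℕ) : ℝ) := by push_cast; linarith
    exact_mod_cast this
  have hle : x + j ≤ t ^ 2 := by nlinarith
  refine ⟨x + j, x, hx1, by omega, hle, ?_, ?_⟩
  · intro p hp1 hp2 hp
    have h3 := hx3 (p - x) (by omega) (by
      have : ((p - x : ℕ) : ℝ) ≤ j := by exact_mod_cast (by omega : p - x ≤ j)
      linarith)
    rw [show x + (p - x) = p by omega] at h3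
    exact h3 hp
  · obtain ⟨q, hq, hq1, hq2⟩ := Nat.exists_prime_lt_and_le_two_mul (t ^ 4) (by positivity)
    refine ⟨q, hq, ?_, ?_⟩
    · calc (x + j) ^ 2 ≤ (t ^ 2) ^ 2 := Nat.pow_le_pow_left hle 2
        _ = t ^ 4 := by ring
        _ < q := hq1
    · have h3 : q ^ 2 ≤ 4 * t ^ 8 := by
        calc q ^ 2 ≤ (2 * t ^ 4) ^ 2 := Nat.pow_le_pow_left hq2 2
          _ = 4 * t ^ 8 := by ring
      have h4 : t ^ 8 ≤ 2 ^ (8 * (Nat.log 2 t + 1)) := by
        rw [mul_comm, pow_mul]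
        exact Nat.pow_le_pow_left (Nat.lt_pow_succ_log_self (by norm_num) t).le 8
      have h5 : x + j - x = 8 * (Nat.log 2 t + 1) + 4 := by omega
      have h6 : 1 ≤ t ^ 8 := Nat.one_le_pow _ _ (by omega)
      rw [h5, pow_add]
      omega

/-- the choice of the digits in a window -/
lemma cell (t t' x N q : ℕ) (hq : 0 < q) (hD : 2 * q ^ 2 + 2 ≤ 2 ^ (t' - x)) (s : ℝ) :
    ∃ N' : ℕ, N * 2 ^ (t' - t) < N' ∧ N' + 1 ≤ N * 2 ^ (t' - t) + 2 ^ (t' - x) ∧ q ^ 2 ∣ N' ∧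
      (s ≤ (N' : ℝ) / 2 ^ t' ∨ ((N' : ℝ) + 1) / 2 ^ t' < s) := by
  set B := N * 2 ^ (t' - t) with hB
  have hq2 : 0 < q ^ 2 := by positivity
  have h1 : q ^ 2 * (B / q ^ 2) ≤ B := Nat.mul_div_le _ _
  have h2 : B < q ^ 2 * (B / q ^ 2 + 1) := Nat.lt_mul_div_succ _ hq2
  have e1 : q ^ 2 * (B / q ^ 2 + 1) = q ^ 2 * (B / q ^ 2) + q ^ 2 := by ring
  have e2 : q ^ 2 * (B / q ^ 2 + 2) = q ^ 2 * (B / q ^ 2) + 2 * q ^ 2 := by ring
  by_cases hs : s ≤ ((q ^ 2 * (B / q ^ 2 + 1) : ℕ) : ℝ) / 2 ^ t' ∨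
      (((q ^ 2 * (B / q ^ 2 + 1) : ℕ) : ℝ) + 1) / 2 ^ t' < s
  · exact ⟨_, h2, by omega, dvd_mul_right _ _, hs⟩
  · push Not at hs
    refine ⟨q ^ 2 * (B / q ^ 2 + 2), by omega, by omega, dvd_mul_right _ _, Or.inl ?_⟩
    refine hs.2.trans ?_
    refine div_le_div_of_nonneg_right ?_ (by positivity)
    have : q ^ 2 * (B / q ^ 2 + 1) + 1 ≤ q ^ 2 * (B / q ^ 2 + 2) := by omega
    exact_mod_cast this

/-- the states of the construction -/
def OK (T0 : ℕ) (z : ℕ × ℕ) : Prop :=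
  T0 ≤ z.1 ∧ 0 < z.2 ∧ ∃ q : ℕ, q.Prime ∧ z.1 ^ 2 < q ∧ q ^ 2 ∣ z.2

/-- one step of the construction -/
def Nx (s : ℝ) (z z' : ℕ × ℕ) : Prop :=
  ∃ x : ℕ, z.1 ≤ x ∧ x < z'.1 ∧ z'.1 ≤ z.1 ^ 2 ∧ (∀ p, x < p → p ≤ z'.1 → ¬ p.Prime) ∧
    z.2 * 2 ^ (z'.1 - z.1) < z'.2 ∧ z'.2 + 1 ≤ z.2 * 2 ^ (z'.1 - z.1) + 2 ^ (z'.1 - x) ∧
    (s ≤ (z'.2 : ℝ) / 2 ^ z'.1 ∨ ((z'.2 : ℝ) + 1) / 2 ^ z'.1 < s)

lemma next {T0 : ℕ} (h : ∀ t ≥ T0, ∃ t' x : ℕ, t ≤ x ∧ x < t' ∧ t' ≤ t ^ 2 ∧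
    (∀ p, x < p → p ≤ t' → ¬ p.Prime) ∧
    ∃ q : ℕ, q.Prime ∧ t' ^ 2 < q ∧ 2 * q ^ 2 + 2 ≤ 2 ^ (t' - x)) (s : ℝ) (z : ℕ × ℕ)
    (hz : OK T0 z) : ∃ z', OK T0 z' ∧ Nx s z z' := by
  obtain ⟨t', x, h1, h2, h3, h4, q, hq, hq1, hq2⟩ := h z.1 hz.1
  obtain ⟨N', g1, g2, g3, g4⟩ := cell z.1 t' x z.2 q hq.pos hq2 s
  exact ⟨(t', N'), ⟨by have := hz.1; simp only; omega, by simp only; omega, q, hq, hq1, g3⟩,
    x, h1, h2, h3, h4, g1, g2, g4⟩

lemma val_step {t t' N : ℕ} (h : t ≤ t') : ((N * 2 ^ (t' - t) : ℕ) : ℝ) / 2 ^ t' = N / 2 ^ t := by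
  have : (2 : ℝ) ^ t' = 2 ^ t * 2 ^ (t' - t) := by rw [← pow_add]; congr 1; omega
  push_cast
  rw [this]
  field_simp

/-- the limit of the construction -/
theorem build {T0 : ℕ} (h : ∀ t ≥ T0, ∃ t' x : ℕ, t ≤ x ∧ x < t' ∧ t' ≤ t ^ 2 ∧
    (∀ p, x < p → p ≤ t' → ¬ p.Prime) ∧
    ∃ q : ℕ, q.Prime ∧ t' ^ 2 < q ∧ 2 * q ^ 2 + 2 ≤ 2 ^ (t' - x)) (s : ℕ → ℝ) (z0 : ℕ × ℕ)
    (hz0 : OK T0 z0) : ∃ β : ℝ, (z0.2 : ℝ) / 2 ^ z0.1 < β ∧ β ≤ (z0.2 + 1) / 2 ^ z0.1 ∧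
      (∀ k, β ≠ s k) ∧ ∀ p : ℕ, p.Prime → z0.1 < p → ¬ (W β p).Prime := by
  classical
  have hnx : ∀ (s : ℝ) (z : {z : ℕ × ℕ // OK T0 z}), ∃ z' : {z : ℕ × ℕ // OK T0 z}, Nx s z.1 z'.1 := by
    intro s z
    obtain ⟨z', h1, h2⟩ := next h s z.1 z.2
    exact ⟨⟨z', h1⟩, h2⟩
  choose nx hnx using hnx
  set Z : ℕ → {z : ℕ × ℕ // OK T0 z} := fun k => Nat.rec ⟨z0, hz0⟩ (fun k z => nx (s k) z) k with hZ
  have hZ0 : Z 0 = ⟨z0, hz0⟩ := rfl
  have hZs : ∀ k, Nx (s k) (Z k).1 (Z (k + 1)).1 := fun k => hnx (s k) (Z k)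
  set t : ℕ → ℕ := fun k => (Z k).1.1 with ht
  set N : ℕ → ℕ := fun k => (Z k).1.2 with hN
  choose x hx1 hx2 hx3 hx4 hx5 hx6 hx7 using hZs
  have hpos : ∀ k : ℕ, (0 : ℝ) < 2 ^ k := fun k => by positivity
  set a : ℕ → ℝ := fun k => (N k : ℝ) / 2 ^ t k with ha
  have htlt : ∀ k, t k < t (k + 1) := fun k => lt_of_le_of_lt (hx1 k) (hx2 k)
  have htm : StrictMono t := strictMono_nat_of_lt_succ htlt
  have haa : ∀ k, a k < a (k + 1) := by
    intro k
    have h1 : ((N k * 2 ^ (t (k + 1) - t k) : ℕ) : ℝ) < N (k + 1) := by exact_mod_cast hx5 k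
    have h2 := div_lt_div_of_pos_right h1 (hpos (t (k + 1)))
    rwa [val_step (htlt k).le] at h2
  have hab : ∀ k, a (k + 1) + 1 / 2 ^ t (k + 1) ≤ a k + 1 / 2 ^ x k := by
    intro k
    have h1 : ((N (k + 1) + 1 : ℕ) : ℝ) ≤
        ((N k * 2 ^ (t (k + 1) - t k) : ℕ) : ℝ) + ((1 * 2 ^ (t (k + 1) - x k) : ℕ) : ℝ) := by
      have := hx6 k
      have h2 : N (k + 1) + 1 ≤ N k * 2 ^ (t (k + 1) - t k) + 1 * 2 ^ (t (k + 1) - x k) := by
        rw [one_mul]; exact this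
      exact_mod_cast h2
    have h2 := div_le_div_of_nonneg_right h1 (hpos (t (k + 1))).le
    rw [add_div, val_step (htlt k).le, val_step (hx2 k).le] at h2
    have e : ((N (k + 1) + 1 : ℕ) : ℝ) / 2 ^ t (k + 1) = a (k + 1) + 1 / 2 ^ t (k + 1) := by
      push_cast
      rw [add_div]
    rw [e] at h2
    simpa using h2
  have hxt : ∀ k, (1 : ℝ) / 2 ^ x k ≤ 1 / 2 ^ t k := by
    intro k
    exact one_div_le_one_div_of_le (hpos _) (pow_le_pow_right₀ (by norm_num) (hx1 k))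
  have ham : StrictMono a := strictMono_nat_of_lt_succ haa
  have hbm : Antitone (fun k => a k + 1 / 2 ^ t k) := antitone_nat_of_succ_le fun k => by
    have := hab k
    have := hxt k
    linarith
  have hup : ∀ k m, a m ≤ a k + 1 / 2 ^ t k := by
    intro k m
    rcases le_total m k with hmk | hmk
    · have h1 := ham.monotone hmk
      have h2 : (0 : ℝ) < 1 / 2 ^ t k := by positivity
      linarith
    · have h1 := hbm hmk
      have h2 : (0 : ℝ) < 1 / 2 ^ t m := by positivity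
      simp only at h1
      linarith
  have hbdd : BddAbove (range a) := ⟨a 0 + 1 / 2 ^ t 0, by
    rintro _ ⟨m, rfl⟩
    exact hup 0 m⟩
  set β := ⨆ k, a k with hβ
  have hlo : ∀ k, a k < β := fun k => lt_of_lt_of_le (haa k) (le_ciSup hbdd (k + 1))
  have hhi : ∀ k, β ≤ a k + 1 / 2 ^ t k := fun k => ciSup_le fun m => hup k m
  have e1 : ∀ k, ((N k : ℝ) + 1) / 2 ^ t k = a k + 1 / 2 ^ t k := fun k => by rw [add_div]
  refine ⟨β, hlo 0, ?_, fun k hk => ?_, fun p hp hp0 => ?_⟩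
  · have := hhi 0
    rw [← e1 0] at this
    exact this
  · rcases hx7 k with h1 | h1
    · have h2 := hlo (k + 1)
      rw [hk] at h2
      exact absurd h1 (not_le.2 h2)
    · have h2 := hhi (k + 1)
      rw [hk] at h2
      have h3 : a (k + 1) + 1 / 2 ^ t (k + 1) < s k := by
        rw [← e1 (k + 1)]
        exact h1
      linarith
  · have hex : ∃ k, p ≤ t k := by
      refine ⟨p, htm.id_le p⟩
    obtain ⟨k, hk1, hk2⟩ : ∃ k, t k < p ∧ p ≤ t (k + 1) := by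
      set K := Nat.find hex with hK
      have h1 := Nat.find_spec hex
      rw [← hK] at h1
      have h2 : K ≠ 0 := by
        intro h0
        rw [h0] at h1
        have : t 0 = z0.1 := rfl
        omega
      refine ⟨K - 1, ?_, by rwa [show K - 1 + 1 = K by omega]⟩
      have := Nat.find_min hex (m := K - 1) (by omega)
      omega
    have hpx : p ≤ x k := by
      by_contra hcon
      exact hx4 k p (by omega) hk2 hp
    have hβ2 : β ≤ N k / 2 ^ t k + 1 / 2 ^ x k := by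
      have h1 := hhi (k + 1)
      have h2 := hab k
      exact h1.trans h2
    have h3 := block (hlo k) hβ2 hk1.le (by
      rw [one_div, inv_mul_le_iff₀ (hpos _), mul_one]
      exact pow_le_pow_right₀ (by norm_num) hpx)
    unfold W
    rw [h3]
    obtain ⟨_, hN0, q, hq, hq1, hq2⟩ := (Z k).2
    have h4 : p < q := by
      have h5 := hx3 k
      calc p ≤ t (k + 1) := hk2
        _ ≤ (t k) ^ 2 := h5
        _ < q := hq1
    refine not_prime_rough hq h4 (Dvd.dvd.mul_right hq2 _) ?_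
    have : (0 : ℕ) < 2 ^ (p - t k) := by positivity
    have h6 : 0 < (Z k).1.2 := hN0
    positivity

end Pool.Agent.R500.MG
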