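import Mathlib
import Pool.Agent.R500.MG.Base
import Pool.Agent.H469R10.HO.Stmts

set_option autoImplicit false

/-!
# Amplitudes whose exponents have positive lower density among the primes
-/

namespace Pool.Agent.R500.MG

open Filter Topology Set

lemma val_step' {t t' N : ℕ} (h : t ≤ t') : ((N * 2 ^ (t' - t) : ℕ) : ℝ) / 2 ^ t' = N / 2 ^ t := by
  have : (2 : ℝ) ^ t' = 2 ^ t * 2 ^ (t' - t) := by rw [← pow_add]; congr 1; omega
  push_cast
  rw [this]
  field_simp

/-- the limit of nested dyadic cells -/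
theorem limit (t x N : ℕ → ℕ) (hx1 : ∀ k, t k ≤ x k) (hx2 : ∀ k, x k < t (k + 1))
    (hx5 : ∀ k, N k * 2 ^ (t (k + 1) - t k) < N (k + 1))
    (hx6 : ∀ k, N (k + 1) + 1 ≤ N k * 2 ^ (t (k + 1) - t k) + 2 ^ (t (k + 1) - x k)) :
    ∃ β : ℝ, ∀ k, (N k : ℝ) / 2 ^ t k < β ∧ β ≤ N k / 2 ^ t k + 1 / 2 ^ x k := by
  have hpos : ∀ k : ℕ, (0 : ℝ) < 2 ^ k := fun k => by positivity
  set a : ℕ → ℝ := fun k => (N k : ℝ) / 2 ^ t k with ha
  have htlt : ∀ k, t k < t (k + 1) := fun k => lt_of_le_of_lt (hx1 k) (hx2 k)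
  have haa : ∀ k, a k < a (k + 1) := by
    intro k
    have h1 : ((N k * 2 ^ (t (k + 1) - t k) : ℕ) : ℝ) < N (k + 1) := by exact_mod_cast hx5 k
    have h2 := div_lt_div_of_pos_right h1 (hpos (t (k + 1)))
    rwa [val_step' (htlt k).le] at h2
  have hab : ∀ k, a (k + 1) + 1 / 2 ^ t (k + 1) ≤ a k + 1 / 2 ^ x k := by
    intro k
    have h1 : ((N (k + 1) + 1 : ℕ) : ℝ) ≤
        ((N k * 2 ^ (t (k + 1) - t k) : ℕ) : ℝ) + ((1 * 2 ^ (t (k + 1) - x k) : ℕ) : ℝ) := by
      have := hx6 k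
      have h2 : N (k + 1) + 1 ≤ N k * 2 ^ (t (k + 1) - t k) + 1 * 2 ^ (t (k + 1) - x k) := by
        rw [one_mul]; exact this
      exact_mod_cast h2
    have h2 := div_le_div_of_nonneg_right h1 (hpos (t (k + 1))).le
    rw [add_div, val_step' (htlt k).le, val_step' (hx2 k).le] at h2
    have e : ((N (k + 1) + 1 : ℕ) : ℝ) / 2 ^ t (k + 1) = a (k + 1) + 1 / 2 ^ t (k + 1) := by
      push_cast
      rw [add_div]
    rw [e] at h2
    simpa using h2
  have hxt : ∀ k, (1 : ℝ) / 2 ^ x k ≤ 1 / 2 ^ t k := by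
    intro k
    exact one_div_le_one_div_of_le (hpos _) (pow_le_pow_right₀ (by norm_num) (hx1 k))
  have ham : StrictMono a := strictMono_nat_of_lt_succ haa
  have hbm : Antitone (fun k => a k + 1 / 2 ^ t k) := antitone_nat_of_succ_le fun k => by
    have := hab k
    have := hxt k
    linarith
  have hup : ∀ k m, a m ≤ a k + 1 / 2 ^ t k := by
    intro k m
    rcases le_total m k with hmk | hmk
    · have h1 := ham.monotone hmk
      have h2 : (0 : ℝ) < 1 / 2 ^ t k := by positivity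
      linarith
    · have h1 := hbm hmk
      have h2 : (0 : ℝ) < 1 / 2 ^ t m := by positivity
      simp only at h1
      linarith
  have hbdd : BddAbove (range a) := ⟨a 0 + 1 / 2 ^ t 0, by
    rintro _ ⟨m, rfl⟩
    exact hup 0 m⟩
  refine ⟨⨆ k, a k, fun k => ⟨lt_of_lt_of_le (haa k) (le_ciSup hbdd (k + 1)), ?_⟩⟩
  have h1 : (⨆ k, a k) ≤ a (k + 1) + 1 / 2 ^ t (k + 1) := ciSup_le fun m => hup (k + 1) m
  exact h1.trans (hab k)

/-- a lower bound for the Hausdorff dimension of the range of a map with Hölder inverse -/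
lemma dimH_ge {g : ℝ → ℝ} {S : Set ℝ} (hS : ∀ y ∈ Set.Ico (0 : ℝ) 1, g y ∈ S) {C s : ℝ}
    (hC : 0 ≤ C) (hs : 0 < s)
    (h : ∀ y ∈ Set.Ico (0 : ℝ) 1, ∀ y' ∈ Set.Ico (0 : ℝ) 1, y < y' →
      y' - y ≤ C * |g y' - g y| ^ s) : ENNReal.ofReal s ≤ dimH S := by
  classical
  set I := Set.Ico (0 : ℝ) 1 with hI
  have h' : ∀ y ∈ I, ∀ y' ∈ I, |y - y'| ≤ C * |g y - g y'| ^ s := by
    intro y hy y' hy'
    rcases lt_trichotomy y y' with hlt | rfl | hlt
    · have := h y hy y' hy' hlt
      rw [abs_sub_comm y, abs_sub_comm (g y), abs_of_pos (by linarith : 0 < y' - y)]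
      exact this
    · simp only [sub_self, abs_zero]
      positivity
    · have := h y' hy' y hy hlt
      rw [abs_of_pos (by linarith : 0 < y - y')]
      exact this
  have hinj : Set.InjOn g I := by
    intro y hy y' hy' he
    have := h' y hy y' hy'
    rw [he, sub_self, abs_zero, Real.zero_rpow hs.ne', mul_zero] at this
    have h2 := abs_nonneg (y - y')
    have h3 : |y - y'| = 0 := le_antisymm this h2
    rw [abs_eq_zero] at h3
    linarith
  set f := Function.invFunOn g I with hf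
  have hfg : ∀ y ∈ I, f (g y) = y := fun y hy => hinj.leftInvOn_invFunOn hy
  have hH : HolderOnWith (Real.toNNReal C) (Real.toNNReal s) f (g '' I) := by
    rintro _ ⟨y, hy, rfl⟩ _ ⟨y', hy', rfl⟩
    rw [hfg y hy, hfg y' hy', edist_dist, edist_dist, Real.dist_eq, Real.dist_eq,
      Real.coe_toNNReal s hs.le,
      ENNReal.ofReal_rpow_of_nonneg (abs_nonneg _) hs.le]
    change _ ≤ ENNReal.ofReal C * _
    rw [← ENNReal.ofReal_mul hC]
    exact ENNReal.ofReal_le_ofReal (h' y hy y' hy')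
  have h1 := hH.dimH_image_le (by simpa using hs)
  have h2 : f '' (g '' I) = I := by
    ext y
    constructor
    · rintro ⟨_, ⟨z, hz, rfl⟩, rfl⟩
      rw [hfg z hz]; exact hz
    · intro hy
      exact ⟨g y, ⟨y, hy, rfl⟩, hfg y hy⟩
  have h3 : dimH I = 1 := by
    have : (interior I).Nonempty := by
      rw [hI, interior_Ico]
      exact ⟨1 / 2, by constructor <;> norm_num⟩
    rw [Real.dimH_of_nonempty_interior this]
    simp
  rw [h2, h3] at h1
  have h4 : g '' I ⊆ S := by
    rintro _ ⟨y, hy, rfl⟩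
    exact hS y hy
  refine le_trans ?_ (dimH_mono h4)
  change 1 ≤ dimH (g '' I) / ENNReal.ofReal s at h1
  have hs1 : ENNReal.ofReal s ≠ 0 := by
    rw [Ne, ENNReal.ofReal_eq_zero]; linarith
  rw [ENNReal.le_div_iff_mul_le (Or.inl hs1) (Or.inl ENNReal.ofReal_ne_top), one_mul] at h1
  exact h1

/-! ### the primes after a number -/

/-- the `i`-th prime after `X` -/
noncomputable def child (X i : ℕ) : ℕ := Nat.nth Nat.Prime (Nat.count Nat.Prime (X + 1) + i)

lemma child_prime (X i : ℕ) : (child X i).Prime := Nat.prime_nth_prime _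

lemma child_gt (X i : ℕ) : X < child X i := by
  unfold child
  have := (Nat.count_le_iff_le_nth (p := Nat.Prime) Nat.infinite_setOfPred_prime (a := X + 1)
    (b := Nat.count Nat.Prime (X + 1) + i)).1 (Nat.le_add_right _ _)
  exact this

lemma child_add (X : ℕ) {i j : ℕ} (h : i ≤ j) : child X i + (j - i) ≤ child X j := by
  have hm : StrictMono (Nat.nth Nat.Prime) := Nat.nth_strictMono Nat.infinite_setOfPred_prime
  unfold child
  have h1 := hm.add_le_nat (j - i) (Nat.count Nat.Prime (X + 1) + i)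
  rw [show j - i + (Nat.count Nat.Prime (X + 1) + i) = Nat.count Nat.Prime (X + 1) + j by omega] at h1
  omega

lemma count_Ioc (X Y : ℕ) : Nat.count Nat.Prime (X + Y + 1) =
    Nat.count Nat.Prime (X + 1) + ((Finset.Ioc X (X + Y)).filter Nat.Prime).card := by
  rw [Nat.count_eq_card_filter_range, Nat.count_eq_card_filter_range,
    ← Finset.card_union_of_disjoint]
  · congr 1
    ext n
    simp only [Finset.mem_filter, Finset.mem_range, Finset.mem_union, Finset.mem_Ioc]
    constructor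
    · rintro ⟨h1, h2⟩
      by_cases h : n < X + 1
      · exact Or.inl ⟨h, h2⟩
      · exact Or.inr ⟨⟨by omega, by omega⟩, h2⟩
    · rintro (⟨h1, h2⟩ | ⟨⟨h1, h3⟩, h2⟩)
      · exact ⟨by omega, h2⟩
      · exact ⟨by omega, h2⟩
  · rw [Finset.disjoint_left]
    intro n h1 h2
    simp only [Finset.mem_filter, Finset.mem_range, Finset.mem_Ioc] at h1 h2
    omega

lemma child_le {X Y i : ℕ} (h : i < ((Finset.Ioc X (X + Y)).filter Nat.Prime).card) :
    child X i ≤ X + Y := by
  unfold child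
  have h1 : Nat.count Nat.Prime (X + 1) + i < Nat.count Nat.Prime (X + Y + 1) := by
    rw [count_Ioc]; omega
  have := Nat.nth_lt_of_lt_count (p := Nat.Prime) h1
  omega

end Pool.Agent.R500.MG
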