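import Mathlib
import Pool.Agent.R500.MG.Dense

set_option autoImplicit false

/-!
# The construction: primes in short intervals
-/

namespace Pool.Agent.R500.MG

open Filter Topology Set

/-- the states of the construction -/
def Good (L B w N : ℕ) : Prop := N.Prime ∧ L * w + w < N ∧ N + 1 ≤ B * 2 ^ (L * w)

/-- many primes in the next cell -/
def Many (L J B w0 : ℕ) : Prop := ∀ w ≥ w0, ∀ N, Good L B w N →
  2 ^ (L * J * w - 2 * w) ≤ ((Finset.Ioc (N * 2 ^ (L * J * w))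
    (N * 2 ^ (L * J * w) + (2 ^ (L * J * w - w) - 1))).filter Nat.Prime).card

lemma many (hH : Pool.Agent.H469R10.HO.Hoheisel) : ∃ J0 : ℕ, ∀ L B J : ℕ, 1 ≤ L → J0 ≤ J →
    ∃ W0 : ℕ, Many L J B W0 := by
  obtain ⟨δ, η, hδ, hδ1, hη, X₀, hX₀, hh⟩ := hH
  refine ⟨⌈3 / δ⌉₊, fun L B J hL hJ => ?_⟩
  have hJδ : 3 ≤ δ * J := by
    have h1 : 3 / δ ≤ J := (Nat.le_ceil _).trans (by exact_mod_cast hJ)
    rw [div_le_iff₀ hδ] at h1
    linarith
  have hJ3 : 3 ≤ J := by
    have h1 : (3 : ℝ) < J := by nlinarith [show (0 : ℝ) ≤ J from Nat.cast_nonneg J]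
    have : 3 < J := by exact_mod_cast h1
    omega
  have ht : Tendsto (fun w : ℕ => ((w : ℝ) ^ 1 / 2 ^ w)) atTop (𝓝 0) :=
    tendsto_pow_const_div_const_pow_of_one_lt 1 (by norm_num)
  have hQ0 : (0 : ℝ) < 2 * (1 + L + L * J) := by positivity
  have h2 := ht.eventually_lt_const (show (0 : ℝ) < η / (2 * (1 + L + L * J)) by positivity)
  obtain ⟨W1, hW1⟩ := eventually_atTop.1 h2
  refine ⟨max W1 (max X₀ (B + 1)), fun w hw N hN => ?_⟩
  have hw1 : W1 ≤ w := (le_max_left _ _).trans hw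
  have hw2 : X₀ ≤ w := ((le_max_left _ _).trans (le_max_right _ _)).trans hw
  have hw3 : B + 1 ≤ w := ((le_max_right _ _).trans (le_max_right _ _)).trans hw
  obtain ⟨hN1, hN2, hN3⟩ := hN
  have hBw : 2 * B ≤ 2 ^ w := by
    have h3 : w - 1 < 2 ^ (w - 1) := Nat.lt_two_pow_self
    have h4 : 2 ^ w = 2 * 2 ^ (w - 1) := by
      rw [← pow_succ', Nat.sub_add_cancel (by omega)]
    omega
  have hLJ : 3 * w ≤ L * J * w := by
    refine Nat.mul_le_mul_right w ?_
    calc 3 ≤ J := hJ3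
      _ = 1 * J := (one_mul J).symm
      _ ≤ L * J := Nat.mul_le_mul_right J hL
  have hLw : w ≤ L * w := by
    calc w = 1 * w := (one_mul w).symm
      _ ≤ L * w := Nat.mul_le_mul_right w hL
  set X := N * 2 ^ (L * J * w) with hX
  set Y := 2 ^ (L * J * w - w) - 1 with hY
  have hX1 : 2 ^ (L * J * w) ≤ X := by
    rw [hX]; exact Nat.le_mul_of_pos_left _ hN1.pos
  have hX2 : X ≤ B * 2 ^ (L * w + L * J * w) := by
    rw [pow_add, ← mul_assoc, hX]
    exact Nat.mul_le_mul_right _ (by omega)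
  have hXX : X₀ ≤ X := by
    have h3 : L * J * w < 2 ^ (L * J * w) := Nat.lt_two_pow_self
    omega
  have hY1 : 2 ^ (L * J * w - w - 1) ≤ Y := by
    have h4 : 2 ^ (L * J * w - w) = 2 * 2 ^ (L * J * w - w - 1) := by
      rw [← pow_succ', Nat.sub_add_cancel (by omega)]
    have h5 : 1 ≤ 2 ^ (L * J * w - w - 1) := Nat.one_le_two_pow
    omega
  have hYX : Y ≤ X := by
    have h3 : 2 ^ (L * J * w - w) ≤ 2 ^ (L * J * w) := Nat.pow_le_pow_right (by norm_num) (by omega)
    omega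
  have hX0 : (0 : ℝ) < X := by
    have : 0 < X := lt_of_lt_of_le (by positivity) hX1
    exact_mod_cast this
  have hXr : ((2 : ℝ) ^ (L * J * w)) ≤ X := by exact_mod_cast hX1
  have hXδ : (2 : ℝ) ^ (3 * (L * w)) ≤ (X : ℝ) ^ δ := by
    calc (2 : ℝ) ^ (3 * (L * w)) = (2 : ℝ) ^ (((3 * (L * w) : ℕ)) : ℝ) := (Real.rpow_natCast _ _).symm
      _ ≤ (2 : ℝ) ^ (((L * J * w : ℕ) : ℝ) * δ) := by
          refine Real.rpow_le_rpow_of_exponent_le (by norm_num) ?_
          push_cast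
          have h6 : (0 : ℝ) ≤ (L : ℝ) * w := by positivity
          have := mul_le_mul_of_nonneg_left hJδ h6
          linarith
      _ = ((2 : ℝ) ^ (L * J * w)) ^ δ := by
          rw [Real.rpow_mul (by norm_num), Real.rpow_natCast]
      _ ≤ (X : ℝ) ^ δ := Real.rpow_le_rpow (by positivity) hXr hδ.le
  have hmain : (X : ℝ) ^ (1 - δ) ≤ Y := by
    rw [Real.rpow_sub hX0, Real.rpow_one, div_le_iff₀ (Real.rpow_pos_of_pos hX0 _)]
    have h7 : X ≤ Y * 2 ^ (3 * (L * w)) := by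
      calc X ≤ B * 2 ^ (L * w + L * J * w) := hX2
        _ ≤ 2 ^ (w - 1) * 2 ^ (L * w + L * J * w) := by
            refine Nat.mul_le_mul_right _ ?_
            have h4 : 2 ^ w = 2 * 2 ^ (w - 1) := by
              rw [← pow_succ', Nat.sub_add_cancel (by omega)]
            omega
        _ = 2 ^ (w - 1 + (L * w + L * J * w)) := (pow_add 2 _ _).symm
        _ ≤ 2 ^ (L * J * w - w - 1 + 3 * (L * w)) := by
            refine Nat.pow_le_pow_right (by norm_num) ?_
            omega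
        _ = 2 ^ (L * J * w - w - 1) * 2 ^ (3 * (L * w)) := pow_add 2 _ _
        _ ≤ Y * 2 ^ (3 * (L * w)) := Nat.mul_le_mul_right _ hY1
    have h8 : (X : ℝ) ≤ Y * 2 ^ (3 * (L * w)) := by exact_mod_cast h7
    exact h8.trans (mul_le_mul_of_nonneg_left hXδ (Nat.cast_nonneg _))
  have h9 := hh X Y hXX hmain hYX
  have hlog : Real.log X ≤ (1 + L + L * J) * w := by
    have h10 : X ≤ 2 ^ (w + (L * w + L * J * w)) := by
      rw [pow_add]
      exact hX2.trans (Nat.mul_le_mul_right _ (by omega))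
    have h11 : (X : ℝ) ≤ 2 ^ (w + (L * w + L * J * w)) := by exact_mod_cast h10
    have h12 := Real.log_le_log hX0 h11
    rw [Real.log_pow] at h12
    have h13 := Real.log_two_lt_d9
    have h14 : ((w + (L * w + L * J * w) : ℕ) : ℝ) * Real.log 2 ≤
        ((w + (L * w + L * J * w) : ℕ) : ℝ) * 1 := by
      refine mul_le_mul_of_nonneg_left (by linarith) (Nat.cast_nonneg _)
    push_cast at h12 h14
    linarith
  have hlog0 : 0 < Real.log X := by
    refine Real.log_pos ?_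
    have : 1 < X := by omega
    exact_mod_cast this
  have h15 := hW1 w hw1
  rw [pow_one, div_lt_div_iff₀ (by positivity) hQ0] at h15
  have h16 : (2 : ℝ) ^ (L * J * w - 2 * w) ≤ η * Y / Real.log X := by
    rw [le_div_iff₀ hlog0]
    have h17 : (2 : ℝ) ^ (L * J * w - w - 1) ≤ Y := by exact_mod_cast hY1
    have h18 : (2 : ℝ) ^ (L * J * w - w - 1) * 2 = 2 ^ (L * J * w - 2 * w) * 2 ^ w := by
      rw [← pow_succ, ← pow_add]
      congr 1
      omega
    have h19 : (0 : ℝ) < 2 ^ (L * J * w - 2 * w) := by positivity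
    calc (2 : ℝ) ^ (L * J * w - 2 * w) * Real.log X
        ≤ 2 ^ (L * J * w - 2 * w) * ((1 + L + L * J) * w) := mul_le_mul_of_nonneg_left hlog h19.le
      _ ≤ 2 ^ (L * J * w - 2 * w) * (η * 2 ^ w / 2) :=
          mul_le_mul_of_nonneg_left (by linarith) h19.le
      _ = η * 2 ^ (L * J * w - w - 1) := by
          linear_combination (-η / 2) * h18
      _ ≤ η * Y := mul_le_mul_of_nonneg_left h17 hη.le
  have h20 := h16.trans h9
  exact_mod_cast h20

lemma good_child {L J B w N i : ℕ} (hL : 1 ≤ L) (hw : 1 ≤ w) (hN : Good L B w N)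
    (hi : i < ((Finset.Ioc (N * 2 ^ (L * J * w))
    (N * 2 ^ (L * J * w) + (2 ^ (L * J * w - w) - 1))).filter Nat.Prime).card) :
    Good L B (w * (J + 1)) (child (N * 2 ^ (L * J * w)) i) ∧
    N * 2 ^ (L * J * w) < child (N * 2 ^ (L * J * w)) i ∧
    child (N * 2 ^ (L * J * w)) i + 1 ≤ N * 2 ^ (L * J * w) + 2 ^ (L * J * w - w) := by
  obtain ⟨hN1, hN2, hN3⟩ := hN
  have h1 := child_gt (N * 2 ^ (L * J * w)) i
  have h2 := child_le hi
  have h3 : 1 ≤ 2 ^ (L * J * w - w) := Nat.one_le_two_pow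
  have h4 : child (N * 2 ^ (L * J * w)) i + 1 ≤ N * 2 ^ (L * J * w) + 2 ^ (L * J * w - w) := by omega
  refine ⟨⟨child_prime _ _, ?_, ?_⟩, h1, h4⟩
  · refine lt_of_le_of_lt ?_ h1
    have h5 : J + 1 ≤ 2 ^ (L * J * w) := by
      have h6 : J ≤ L * J * w := by
        calc J = 1 * J * 1 := by ring
          _ ≤ L * J * w := Nat.mul_le_mul (Nat.mul_le_mul_right J hL) hw
      have h7 : J < 2 ^ J := Nat.lt_two_pow_self
      have h8 : 2 ^ J ≤ 2 ^ (L * J * w) := Nat.pow_le_pow_right (by norm_num) h6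
      omega
    calc L * (w * (J + 1)) + w * (J + 1) = (L * w + w) * (J + 1) := by ring
      _ ≤ N * 2 ^ (L * J * w) := Nat.mul_le_mul hN2.le h5
  · calc child (N * 2 ^ (L * J * w)) i + 1 ≤ N * 2 ^ (L * J * w) + 2 ^ (L * J * w - w) := h4
      _ ≤ N * 2 ^ (L * J * w) + 1 * 2 ^ (L * J * w) := by
          rw [one_mul]
          exact Nat.add_le_add_left (Nat.pow_le_pow_right (by norm_num) (Nat.sub_le _ _)) _
      _ = (N + 1) * 2 ^ (L * J * w) := by ring
      _ ≤ B * 2 ^ (L * w) * 2 ^ (L * J * w) := Nat.mul_le_mul_right _ hN3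
      _ = B * 2 ^ (L * (w * (J + 1))) := by
          rw [mul_assoc, ← pow_add]
          congr 2
          ring

end Pool.Agent.R500.MG
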