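import Mathlib
import Pool.Agent.R500.MG.Dense2

set_option autoImplicit false

/-!
# The construction: a map with Hölder inverse
-/

namespace Pool.Agent.R500.MG

open Filter Topology Set

/-- the scales -/
def ww (J w0 k : ℕ) : ℕ := w0 * (J + 1) ^ k

/-- the number of free digits -/
def aa (L J w0 k : ℕ) : ℕ := L * J * ww J w0 k - 2 * ww J w0 k

/-- the number of digits used -/
def AA (L J w0 k : ℕ) : ℕ := ∑ j ∈ Finset.range k, aa L J w0 j

/-- the digits of the parameter -/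
noncomputable def idx (A : ℕ → ℕ) (y : ℝ) (k : ℕ) : ℕ := ⌊y * 2 ^ (A k)⌋₊

/-- the values -/
noncomputable def Nn (L J w0 N0 : ℕ) (y : ℝ) : ℕ → ℕ
  | 0 => N0
  | k + 1 => child (Nn L J w0 N0 y k * 2 ^ (L * J * ww J w0 k))
      (idx (AA L J w0) y (k + 1) - 2 ^ (aa L J w0 k) * idx (AA L J w0) y k)

lemma ww_succ (J w0 k : ℕ) : ww J w0 (k + 1) = ww J w0 k * (J + 1) := by
  unfold ww
  rw [pow_succ]
  ring

lemma AA_succ (L J w0 k : ℕ) : AA L J w0 (k + 1) = AA L J w0 k + aa L J w0 k := by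
  unfold AA
  rw [Finset.sum_range_succ]

lemma ww_ge (J w0 k : ℕ) : w0 ≤ ww J w0 k := by
  unfold ww
  exact Nat.le_mul_of_pos_right _ (by positivity)

lemma ww_pos {J w0 : ℕ} (h : 1 ≤ w0) (k : ℕ) : 1 ≤ ww J w0 k := h.trans (ww_ge J w0 k)

lemma idx_le (L J w0 : ℕ) {y : ℝ} (hy : 0 ≤ y) (k : ℕ) :
    2 ^ (aa L J w0 k) * idx (AA L J w0) y k ≤ idx (AA L J w0) y (k + 1) := by
  unfold idx
  refine Nat.le_floor ?_
  rw [AA_succ, pow_add]
  push_cast
  have h1 : (⌊y * 2 ^ AA L J w0 k⌋₊ : ℝ) ≤ y * 2 ^ AA L J w0 k := Nat.floor_le (by positivity)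
  have h2 := mul_le_mul_of_nonneg_left h1 (show (0 : ℝ) ≤ 2 ^ aa L J w0 k by positivity)
  calc _ ≤ (2 : ℝ) ^ aa L J w0 k * (y * 2 ^ AA L J w0 k) := h2
    _ = _ := by ring

lemma idx_lt (L J w0 : ℕ) {y : ℝ} (hy : 0 ≤ y) (k : ℕ) :
    idx (AA L J w0) y (k + 1) < 2 ^ (aa L J w0 k) * (idx (AA L J w0) y k + 1) := by
  unfold idx
  rw [Nat.floor_lt (by positivity), AA_succ, pow_add]
  push_cast
  have h1 : y * 2 ^ AA L J w0 k < (⌊y * 2 ^ AA L J w0 k⌋₊ : ℝ) + 1 := Nat.lt_floor_add_one _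
  have h2 := mul_lt_mul_of_pos_left h1 (show (0 : ℝ) < 2 ^ aa L J w0 k by positivity)
  calc _ = (2 : ℝ) ^ aa L J w0 k * (y * 2 ^ AA L J w0 k) := by ring
    _ < _ := h2

lemma dig_lt (L J w0 : ℕ) {y : ℝ} (hy : 0 ≤ y) (k : ℕ) :
    idx (AA L J w0) y (k + 1) - 2 ^ (aa L J w0 k) * idx (AA L J w0) y k < 2 ^ (aa L J w0 k) := by
  have h1 := idx_lt L J w0 hy k
  have h2 := idx_le L J w0 hy k
  rw [mul_add, mul_one] at h1
  omega

variable {L J B w0 N0 : ℕ}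

lemma good_all (hL : 1 ≤ L) (hw0 : 1 ≤ w0) (hM : Many L J B w0) (hN0 : Good L B w0 N0) {y : ℝ}
    (hy : 0 ≤ y) (k : ℕ) : Good L B (ww J w0 k) (Nn L J w0 N0 y k) := by
  induction k with
  | zero => simpa [ww, Nn] using hN0
  | succ k ih =>
    rw [ww_succ]
    unfold Nn
    exact (good_child hL (ww_pos hw0 k) ih
      (lt_of_lt_of_le (dig_lt L J w0 hy k) (hM _ (ww_ge J w0 k) _ ih))).1

lemma step_all (hL : 1 ≤ L) (hw0 : 1 ≤ w0) (hM : Many L J B w0) (hN0 : Good L B w0 N0) {y : ℝ}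
    (hy : 0 ≤ y) (k : ℕ) :
    Nn L J w0 N0 y k * 2 ^ (L * J * ww J w0 k) < Nn L J w0 N0 y (k + 1) ∧
    Nn L J w0 N0 y (k + 1) + 1 ≤ Nn L J w0 N0 y k * 2 ^ (L * J * ww J w0 k) +
      2 ^ (L * J * ww J w0 k - ww J w0 k) := by
  have ih := good_all hL hw0 hM hN0 hy k
  have h := good_child hL (ww_pos hw0 k) ih
      (lt_of_lt_of_le (dig_lt L J w0 hy k) (hM _ (ww_ge J w0 k) _ ih))
  exact ⟨h.2.1, h.2.2⟩

lemma exists_beta (hL : 1 ≤ L) (hJ : 3 ≤ J) (hw0 : 1 ≤ w0) (hM : Many L J B w0)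
    (hN0 : Good L B w0 N0) {y : ℝ} (hy : 0 ≤ y) : ∃ β : ℝ, ∀ k,
      (Nn L J w0 N0 y k : ℝ) / 2 ^ (L * ww J w0 k) < β ∧
      β ≤ Nn L J w0 N0 y k / 2 ^ (L * ww J w0 k) + 1 / 2 ^ (L * ww J w0 k + ww J w0 k) := by
  have e : ∀ k, L * ww J w0 (k + 1) = L * ww J w0 k + L * J * ww J w0 k := by
    intro k; rw [ww_succ]; ring
  have hLJ : ∀ k, 3 * ww J w0 k ≤ L * J * ww J w0 k := fun k => by
    refine Nat.mul_le_mul_right _ ?_
    calc 3 ≤ J := hJ
      _ = 1 * J := (one_mul J).symm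
      _ ≤ L * J := Nat.mul_le_mul_right J hL
  refine limit (fun k => L * ww J w0 k) (fun k => L * ww J w0 k + ww J w0 k)
    (fun k => Nn L J w0 N0 y k) (fun k => Nat.le_add_right _ _) (fun k => ?_) (fun k => ?_)
    (fun k => ?_)
  · have h1 := e k
    have h2 := hLJ k
    have h3 := ww_pos (J := J) hw0 k
    omega
  · have h1 := (step_all hL hw0 hM hN0 hy k).1
    rw [show L * ww J w0 (k + 1) - L * ww J w0 k = L * J * ww J w0 k by rw [e k]; omega]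
    exact h1
  · have h1 := (step_all hL hw0 hM hN0 hy k).2
    rw [show L * ww J w0 (k + 1) - L * ww J w0 k = L * J * ww J w0 k by rw [e k]; omega,
      show L * ww J w0 (k + 1) - (L * ww J w0 k + ww J w0 k) = L * J * ww J w0 k - ww J w0 k by
        rw [e k]; omega]
    exact h1

lemma Nn_congr {y y' : ℝ} {k : ℕ}
    (h : ∀ j ≤ k, idx (AA L J w0) y j = idx (AA L J w0) y' j) :
    Nn L J w0 N0 y k = Nn L J w0 N0 y' k := by
  induction k with
  | zero => rfl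
  | succ k ih =>
    unfold Nn
    rw [ih fun j hj => h j (by omega), h k (by omega), h (k + 1) le_rfl]

lemma AA_ge (hL : 1 ≤ L) (hJ : 3 ≤ J) (hw0 : 1 ≤ w0) (k : ℕ) : k ≤ AA L J w0 k := by
  induction k with
  | zero => omega
  | succ k ih =>
    rw [AA_succ]
    have h1 : 3 * ww J w0 k ≤ L * J * ww J w0 k := by
      refine Nat.mul_le_mul_right _ ?_
      calc 3 ≤ J := hJ
        _ = 1 * J := (one_mul J).symm
        _ ≤ L * J := Nat.mul_le_mul_right J hL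
    have h2 := ww_pos (J := J) hw0 k
    unfold aa
    omega

/-- the exponent inequality -/
lemma expo (hL : 1 ≤ L) (hJ : 3 ≤ J) {s : ℝ} (hs1 : s < 1)
    (hsL : s * ((L + 2) * (J + 1)) ≤ L * J - 2) (k : ℕ) :
    1 + s + s * ((L + 2) * ww J w0 k) ≤ AA L J w0 k + ((L + 2) * w0 + 2) := by
  rcases k with _ | k
  · have h0 : (0 : ℝ) ≤ (L + 2) * w0 := by positivity
    have h1 : s * ((L + 2) * w0) ≤ 1 * ((L + 2) * w0) := mul_le_mul_of_nonneg_right hs1.le h0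
    have h2 : (0 : ℝ) ≤ AA L J w0 0 := Nat.cast_nonneg _
    have e : (ww J w0 0 : ℝ) = w0 := by simp [ww]
    rw [e]
    linarith
  · have h1 : (AA L J w0 (k + 1) : ℝ) ≥ (L * J - 2) * ww J w0 k := by
      rw [AA_succ]
      have hle : 2 * ww J w0 k ≤ L * J * ww J w0 k := by
        refine Nat.mul_le_mul_right _ ?_
        calc 2 ≤ J := by omega
          _ = 1 * J := (one_mul J).symm
          _ ≤ L * J := Nat.mul_le_mul_right J hL
      have h2 : (aa L J w0 k : ℝ) = (L * J - 2) * ww J w0 k := by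
        unfold aa
        rw [Nat.cast_sub hle]
        push_cast
        ring
      push_cast
      rw [h2]
      have : (0 : ℝ) ≤ AA L J w0 k := Nat.cast_nonneg _
      linarith
    have h3 : (ww J w0 (k + 1) : ℝ) = ww J w0 k * (J + 1) := by
      rw [ww_succ]; push_cast; ring
    rw [h3]
    have h4 : (0 : ℝ) ≤ ww J w0 k := Nat.cast_nonneg _
    have h5 := mul_le_mul_of_nonneg_right hsL h4
    have h6 : (0 : ℝ) ≤ (L + 2) * w0 := by positivity
    have h7 : s * ((L + 2) * ((ww J w0 k : ℝ) * (J + 1))) = s * ((L + 2) * (J + 1)) * ww J w0 k := by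
      ring
    rw [h7]
    linarith

/-- the map with Hölder inverse -/
theorem main (hL : 1 ≤ L) (hJ : 3 ≤ J) (hw0 : 1 ≤ w0) (hM : Many L J B w0)
    (hN0 : Good L B w0 N0) {s : ℝ} (hs : 0 < s) (hs1 : s < 1)
    (hsL : s * ((L + 2) * (J + 1)) ≤ L * J - 2) :
    ∃ g : ℝ → ℝ, (∀ y ∈ Set.Ico (0 : ℝ) 1, ∃ N : ℕ → ℕ, N 0 = N0 ∧
      ∀ k, Good L B (ww J w0 k) (N k) ∧ (N k : ℝ) / 2 ^ (L * ww J w0 k) < g y ∧
        g y ≤ N k / 2 ^ (L * ww J w0 k) + 1 / 2 ^ (L * ww J w0 k + ww J w0 k)) ∧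
      ∀ y ∈ Set.Ico (0 : ℝ) 1, ∀ y' ∈ Set.Ico (0 : ℝ) 1, y < y' →
        y' - y ≤ (2 : ℝ) ^ (((L : ℝ) + 2) * w0 + 2) * |g y' - g y| ^ s := by
  classical
  have hex : ∀ y : ℝ, ∃ β : ℝ, 0 ≤ y → ∀ k,
      (Nn L J w0 N0 y k : ℝ) / 2 ^ (L * ww J w0 k) < β ∧
      β ≤ Nn L J w0 N0 y k / 2 ^ (L * ww J w0 k) + 1 / 2 ^ (L * ww J w0 k + ww J w0 k) := by
    intro y
    by_cases hy : 0 ≤ y
    · obtain ⟨β, hβ⟩ := exists_beta hL hJ hw0 hM hN0 hy
      exact ⟨β, fun _ => hβ⟩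
    · exact ⟨0, fun h => absurd h hy⟩
  choose g hg using hex
  refine ⟨g, fun y hy => ⟨Nn L J w0 N0 y, rfl, fun k =>
    ⟨good_all hL hw0 hM hN0 hy.1 k, hg y hy.1 k⟩⟩, fun y hy y' hy' hlt => ?_⟩
  have hidx : ∃ k, idx (AA L J w0) y k ≠ idx (AA L J w0) y' k := by
    have h1 : Tendsto (fun k : ℕ => (1 / 2 : ℝ) ^ k) atTop (𝓝 0) :=
      tendsto_pow_atTop_nhds_zero_of_lt_one (by norm_num) (by norm_num)
    obtain ⟨k, hk⟩ := (h1.eventually_lt_const (show (0 : ℝ) < y' - y by linarith)).exists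
    refine ⟨k, fun he => ?_⟩
    unfold idx at he
    have h2 : (⌊y * 2 ^ AA L J w0 k⌋₊ : ℝ) ≤ y * 2 ^ AA L J w0 k :=
      Nat.floor_le (by have := hy.1; positivity)
    have h3 : y' * 2 ^ AA L J w0 k < (⌊y' * 2 ^ AA L J w0 k⌋₊ : ℝ) + 1 := Nat.lt_floor_add_one _
    rw [← he] at h3
    have h4 : (y' - y) * 2 ^ AA L J w0 k < 1 := by linarith
    have h5 : (2 : ℝ) ^ k ≤ 2 ^ AA L J w0 k := pow_le_pow_right₀ (by norm_num) (AA_ge hL hJ hw0 k)
    have h6 : (1 : ℝ) < (y' - y) * 2 ^ k := by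
      have h7 : (1 / 2 : ℝ) ^ k * 2 ^ k = 1 := by rw [← mul_pow]; norm_num
      rw [← h7]
      exact mul_lt_mul_of_pos_right hk (by positivity)
    have h7 : (y' - y) * 2 ^ k ≤ (y' - y) * 2 ^ AA L J w0 k :=
      mul_le_mul_of_nonneg_left h5 (by linarith)
    linarith
  set K := Nat.find hidx with hK
  have hK1 := Nat.find_spec hidx
  rw [← hK] at hK1
  have hK0 : K ≠ 0 := by
    intro h0
    rw [h0] at hK1
    apply hK1
    have e : ∀ z ∈ Set.Ico (0 : ℝ) 1, idx (AA L J w0) z 0 = 0 := by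
      intro z hz
      have : AA L J w0 0 = 0 := by simp [AA]
      unfold idx
      rw [this, pow_zero, mul_one]
      exact Nat.floor_eq_zero.2 hz.2
    rw [e y hy, e y' hy']
  obtain ⟨k, hk⟩ : ∃ k, K = k + 1 := ⟨K - 1, by omega⟩
  have hlow : ∀ j ≤ k, idx (AA L J w0) y j = idx (AA L J w0) y' j := by
    intro j hj
    have := Nat.find_min hidx (m := j) (by omega)
    push Not at this
    exact this
  have hNk := Nn_congr (N0 := N0) hlow
  rw [hk] at hK1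
  have hmono : idx (AA L J w0) y (k + 1) ≤ idx (AA L J w0) y' (k + 1) := by
    unfold idx
    exact Nat.floor_le_floor (mul_le_mul_of_nonneg_right hlt.le (by positivity))
  have hlt' : idx (AA L J w0) y (k + 1) < idx (AA L J w0) y' (k + 1) := lt_of_le_of_ne hmono hK1
  have hle := idx_le L J w0 hy.1 k
  have hlt2 := dig_lt L J w0 hy'.1 k
  set D := idx (AA L J w0) y' (k + 1) - idx (AA L J w0) y (k + 1) with hD
  have hD1 : 1 ≤ D := by omega
  have hkk := hlow k le_rfl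
  have hD2 : D ≤ 2 ^ aa L J w0 k := by
    rw [hkk] at hle
    omega
  -- the values
  have hNN : Nn L J w0 N0 y (k + 1) + D ≤ Nn L J w0 N0 y' (k + 1) := by
    have e1 : Nn L J w0 N0 y (k + 1) = child (Nn L J w0 N0 y k * 2 ^ (L * J * ww J w0 k))
      (idx (AA L J w0) y (k + 1) - 2 ^ (aa L J w0 k) * idx (AA L J w0) y k) := rfl
    have e2 : Nn L J w0 N0 y' (k + 1) = child (Nn L J w0 N0 y' k * 2 ^ (L * J * ww J w0 k))
      (idx (AA L J w0) y' (k + 1) - 2 ^ (aa L J w0 k) * idx (AA L J w0) y' k) := rfl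
    rw [e1, e2, ← hNk, ← hkk]
    have h1 := child_add (Nn L J w0 N0 y k * 2 ^ (L * J * ww J w0 k))
      (i := idx (AA L J w0) y (k + 1) - 2 ^ (aa L J w0 k) * idx (AA L J w0) y k)
      (j := idx (AA L J w0) y' (k + 1) - 2 ^ (aa L J w0 k) * idx (AA L J w0) y k) (by omega)
    have h2 : idx (AA L J w0) y' (k + 1) - 2 ^ (aa L J w0 k) * idx (AA L J w0) y k -
      (idx (AA L J w0) y (k + 1) - 2 ^ (aa L J w0 k) * idx (AA L J w0) y k) = D := by omega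
    rw [h2] at h1
    exact h1
  set T := L * ww J w0 (k + 1) with hT
  have hpos : (0 : ℝ) < 2 ^ T := by positivity
  have hg1 := (hg y hy.1 (k + 1)).2
  have hg2 := (hg y' hy'.1 (k + 1)).1
  have hNNr : (Nn L J w0 N0 y (k + 1) : ℝ) + D ≤ Nn L J w0 N0 y' (k + 1) := by exact_mod_cast hNN
  have hDr : (1 : ℝ) ≤ D := by exact_mod_cast hD1
  have hβ : (D : ℝ) / 2 ^ (T + 1) ≤ g y' - g y := by
    have h1 : ((Nn L J w0 N0 y (k + 1) : ℝ) + D) / 2 ^ T ≤ Nn L J w0 N0 y' (k + 1) / 2 ^ T :=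
      div_le_div_of_nonneg_right hNNr hpos.le
    rw [add_div] at h1
    have h2 : (1 : ℝ) / 2 ^ (T + ww J w0 (k + 1)) ≤ 1 / 2 ^ (T + 1) := by
      refine one_div_le_one_div_of_le (by positivity) (pow_le_pow_right₀ (by norm_num) ?_)
      have := ww_pos (J := J) hw0 (k + 1)
      omega
    have h3 : (1 : ℝ) / 2 ^ (T + 1) ≤ D / 2 ^ (T + 1) := div_le_div_of_nonneg_right hDr (by positivity)
    have h4 : (D : ℝ) / 2 ^ T = 2 * (D / 2 ^ (T + 1)) := by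
      rw [pow_succ]
      field_simp
    linarith
  have hgpos : 0 < g y' - g y := lt_of_lt_of_le (by positivity) hβ
  -- the parameters
  have hyy : y' - y ≤ 2 * D / 2 ^ AA L J w0 (k + 1) := by
    rw [le_div_iff₀ (by positivity)]
    have h2 : (idx (AA L J w0) y (k + 1) : ℝ) ≤ y * 2 ^ AA L J w0 (k + 1) :=
      Nat.floor_le (by have := hy.1; positivity)
    have h3 : y' * 2 ^ AA L J w0 (k + 1) < (idx (AA L J w0) y' (k + 1) : ℝ) + 1 :=
      Nat.lt_floor_add_one _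
    have h4 : (D : ℝ) = idx (AA L J w0) y' (k + 1) - idx (AA L J w0) y (k + 1) := by
      rw [hD, Nat.cast_sub hmono]
    linarith
  rw [abs_of_pos hgpos]
  have hbase : ((D : ℝ) / 2 ^ (T + 1)) ^ s ≤ (g y' - g y) ^ s :=
    Real.rpow_le_rpow (by positivity) hβ hs.le
  have hC0 : (0 : ℝ) < (2 : ℝ) ^ (((L : ℝ) + 2) * w0 + 2) := by positivity
  refine le_trans ?_ (mul_le_mul_of_nonneg_left hbase hC0.le)
  refine hyy.trans ?_
  rw [Real.div_rpow (by positivity) (by positivity), ← Real.rpow_natCast 2 (T + 1),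
    ← Real.rpow_mul (by norm_num), ← Real.rpow_natCast 2 (AA L J w0 (k + 1))]
  rw [div_le_iff₀ (by positivity), mul_assoc, div_mul_eq_mul_div, mul_div_assoc',
    le_div_iff₀ (by positivity)]
  -- goal: 2 * D * 2 ^ ((T+1) * s) ≤ C * (D ^ s * 2 ^ AA)
  have hD3 : (D : ℝ) ^ (1 - s) ≤ (2 : ℝ) ^ ((aa L J w0 k : ℝ) * (1 - s)) := by
    have h1 : (D : ℝ) ≤ (2 : ℝ) ^ (aa L J w0 k : ℝ) := by
      rw [Real.rpow_natCast]
      exact_mod_cast hD2
    calc (D : ℝ) ^ (1 - s) ≤ ((2 : ℝ) ^ (aa L J w0 k : ℝ)) ^ (1 - s) :=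
          Real.rpow_le_rpow (by positivity) h1 (by linarith)
      _ = _ := by rw [← Real.rpow_mul (by norm_num)]
  have hDs : (D : ℝ) = (D : ℝ) ^ (1 - s) * (D : ℝ) ^ s := by
    rw [← Real.rpow_add (by linarith)]
    simp
  have hexpo := expo (L := L) (J := J) (w0 := w0) hL hJ hs1 hsL k
  have hTe : (T : ℝ) = L * ww J w0 k + L * J * ww J w0 k := by
    rw [hT, ww_succ]; push_cast; ring
  have hle2 : 2 * ww J w0 k ≤ L * J * ww J w0 k := by
    refine Nat.mul_le_mul_right _ ?_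
    calc 2 ≤ J := by omega
      _ = 1 * J := (one_mul J).symm
      _ ≤ L * J := Nat.mul_le_mul_right J hL
  have hae : (aa L J w0 k : ℝ) = L * J * ww J w0 k - 2 * ww J w0 k := by
    unfold aa
    rw [Nat.cast_sub hle2]
    push_cast
    ring
  have hAe : (AA L J w0 (k + 1) : ℝ) = AA L J w0 k + aa L J w0 k := by
    rw [AA_succ]; push_cast; ring
  have hfin : (2 : ℝ) * 2 ^ ((aa L J w0 k : ℝ) * (1 - s)) * 2 ^ (((T + 1 : ℕ) : ℝ) * s) ≤
      (2 : ℝ) ^ (((L : ℝ) + 2) * w0 + 2) * 2 ^ (AA L J w0 (k + 1) : ℝ) := by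
    nth_rewrite 1 [← Real.rpow_one 2]
    rw [← Real.rpow_add (by norm_num), ← Real.rpow_add (by norm_num),
      ← Real.rpow_add (by norm_num)]
    refine Real.rpow_le_rpow_of_exponent_le (by norm_num) ?_
    push_cast
    rw [hAe, hTe, hae] at *
    have e : 1 + ((L : ℝ) * J * ww J w0 k - 2 * ww J w0 k) * (1 - s) +
        (L * ww J w0 k + L * J * ww J w0 k + 1) * s =
        1 + s + s * ((L + 2) * ww J w0 k) + (L * J * ww J w0 k - 2 * ww J w0 k) := by ring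
    rw [e]
    linarith
  have hDs0 : (0 : ℝ) < (D : ℝ) ^ s := by positivity
  have hT0 : (0 : ℝ) < (2 : ℝ) ^ (((T + 1 : ℕ) : ℝ) * s) := by positivity
  calc 2 * (D : ℝ) * 2 ^ (((T + 1 : ℕ) : ℝ) * s)
      = (2 * (D : ℝ) ^ (1 - s) * 2 ^ (((T + 1 : ℕ) : ℝ) * s)) * (D : ℝ) ^ s := by
        nth_rewrite 1 [hDs]
        ring
    _ ≤ (2 * (2 : ℝ) ^ ((aa L J w0 k : ℝ) * (1 - s)) * 2 ^ (((T + 1 : ℕ) : ℝ) * s)) * (D : ℝ) ^ s := by
        refine mul_le_mul_of_nonneg_right (mul_le_mul_of_nonneg_right ?_ hT0.le) hDs0.le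
        linarith
    _ ≤ ((2 : ℝ) ^ (((L : ℝ) + 2) * w0 + 2) * 2 ^ (AA L J w0 (k + 1) : ℝ)) * (D : ℝ) ^ s :=
        mul_le_mul_of_nonneg_right hfin hDs0.le
    _ = _ := by ring

end Pool.Agent.R500.MG
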