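import Mathlib
import Pool.Agent.R500.MG.Dense3
import Pool.Agent.H295R3.Hoheisel

set_option autoImplicit false

/-!
# The count of the exponents, and the start of the construction
-/

namespace Pool.Agent.R500.MG

open Filter Topology Set

lemma roughPart_self_prime' {p q : ℕ} (hq : q.Prime) (h : p < q) : roughPart p q = q := by
  unfold roughPart
  rw [Nat.primeFactorsList_prime hq]
  simp [h]

/-- all primes in the block of zeros are exponents -/
lemma block_prime {β : ℝ} {N l x : ℕ} (h1 : (N : ℝ) / 2 ^ l < β)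
    (h2 : β ≤ N / 2 ^ l + 1 / 2 ^ x) (hN : N.Prime) (hx : x < N) {p : ℕ} (hp : p.Prime)
    (hlp : l < p) (hpx : p ≤ x) : (W β p).Prime := by
  have h3 := block h1 h2 hlp.le (by
    rw [one_div, inv_mul_le_iff₀ (by positivity), mul_one]
    exact pow_le_pow_right₀ (by norm_num) hpx)
  unfold W
  rw [h3, roughPart_shift (k := 2) le_rfl hp.two_le hN (by omega)
    (roughPart_self_prime' hN (by have := hp.two_le; omega))]
  exact hN

/-- the count -/
lemma density {L J : ℕ} (hL : 1 ≤ L) (hJ : 1 ≤ J) {w0 : ℕ} (hw0 : 1 ≤ w0) {β : ℝ} {N : ℕ → ℕ}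
    (hN : ∀ k, (N k).Prime ∧ L * ww J w0 k + ww J w0 k < N k ∧
      (N k : ℝ) / 2 ^ (L * ww J w0 k) < β ∧
        β ≤ N k / 2 ^ (L * ww J w0 k) + 1 / 2 ^ (L * ww J w0 k + ww J w0 k)) :
    ∀ᶠ n : ℕ in atTop, 1 / (2 * ((L : ℝ) + 1) * (J + 2)) * Nat.primeCounting n ≤ M β n := by
  have hL0 : (0 : ℝ) < L := by exact_mod_cast hL
  have hr1 := pi_ratio (t := (L : ℝ) / (L + 1)) (ε := 1 / (2 * (L + 1))) (by positivity)
    (by positivity)
  have hr2 := pi_ratio (t := (J : ℝ) + 1) (ε := 1) (by positivity) one_pos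
  obtain ⟨U, hU⟩ := eventually_atTop.1 (hr1.and hr2)
  have hev : ∀ᶠ n : ℕ in atTop, U * (J + 1) ≤ n :=
    tendsto_natCast_atTop_atTop.eventually_ge_atTop _
  set x : ℕ → ℕ := fun k => L * ww J w0 k + ww J w0 k with hx
  have hxs : ∀ k, x (k + 1) = (J + 1) * x k := by
    intro k
    simp only [hx, ww_succ]
    ring
  have hx1 : ∀ k, 1 ≤ x k := fun k => by
    have := ww_pos (J := J) hw0 k
    simp only [hx]
    omega
  have hxm : StrictMono x := strictMono_nat_of_lt_succ fun k => by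
    rw [hxs]
    have := hx1 k
    nlinarith
  filter_upwards [hev, eventually_ge_atTop (x 0)] with n hn1 hn2
  have hex : ∃ k, n < x k := ⟨n + 1, lt_of_lt_of_le (Nat.lt_succ_self n) (hxm.id_le _)⟩
  obtain ⟨k, hk1, hk2⟩ : ∃ k, x k ≤ n ∧ n < x (k + 1) := by
    set K := Nat.find hex with hK
    have h1 := Nat.find_spec hex
    rw [← hK] at h1
    have h2 : K ≠ 0 := by
      intro h0
      rw [h0] at h1
      omega
    refine ⟨K - 1, ?_, by rwa [show K - 1 + 1 = K by omega]⟩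
    have := Nat.find_min hex (m := K - 1) (by omega)
    omega
  have hxr : (n : ℝ) ≤ (J + 1) * x k := by
    have : n ≤ (J + 1) * x k := by rw [← hxs]; exact hk2.le
    exact_mod_cast this
  have hUk : U ≤ x k := by
    have h1 : U * (J + 1) ≤ x k * (J + 1) := by linarith
    exact le_of_mul_le_mul_right h1 (by positivity)
  obtain ⟨⟨g1, g2⟩, g3, g4⟩ := hU (x k) hUk
  have e1 : (L : ℝ) / (L + 1) * x k = ((L * ww J w0 k : ℕ) : ℝ) := by
    simp only [hx]
    push_cast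
    field_simp
  have e2 : ((J : ℝ) + 1) * x k = ((x (k + 1) : ℕ) : ℝ) := by
    rw [hxs]; push_cast; ring
  rw [e1, Nat.floor_natCast, Nat.floor_natCast] at g1
  rw [e2, Nat.floor_natCast, Nat.floor_natCast] at g3
  rw [Nat.floor_natCast] at g2
  obtain ⟨hNp, hNx, hN1, hN2⟩ := hN k
  have hM1 := M_ge (β := β) (k := L * ww J w0 k) (n := x k) fun p hp h1 h2 =>
    block_prime hN1 hN2 hNp hNx hp h1 h2
  have hM2 : (Nat.primeCounting (x k) : ℝ) ≤ M β (x k) + Nat.primeCounting (L * ww J w0 k) := by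
    exact_mod_cast hM1
  have hM3 : (M β (x k) : ℝ) ≤ M β n := by exact_mod_cast M_mono β hk1
  have hpn : (Nat.primeCounting n : ℝ) ≤ Nat.primeCounting (x (k + 1)) := by
    exact_mod_cast Nat.monotone_primeCounting hk2.le
  have h5 : (Nat.primeCounting (x k) : ℝ) * (1 / (2 * (L + 1))) ≤ M β n := by
    have e3 : (1 : ℝ) - (L / (L + 1) + 1 / (2 * (L + 1))) = 1 / (2 * (L + 1)) := by
      field_simp
      ring
    calc (Nat.primeCounting (x k) : ℝ) * (1 / (2 * (L + 1)))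
        = Nat.primeCounting (x k) - (L / (L + 1) + 1 / (2 * (L + 1))) * Nat.primeCounting (x k) := by
          linear_combination (-(Nat.primeCounting (x k) : ℝ)) * e3
      _ ≤ M β n := by linarith
  have h6 : (Nat.primeCounting n : ℝ) ≤ (J + 2) * Nat.primeCounting (x k) := by
    have : ((J : ℝ) + 1 + 1) = J + 2 := by ring
    rw [this] at g3
    exact hpn.trans g3
  calc 1 / (2 * ((L : ℝ) + 1) * (J + 2)) * Nat.primeCounting n
      ≤ 1 / (2 * ((L : ℝ) + 1) * (J + 2)) * ((J + 2) * Nat.primeCounting (x k)) :=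
        mul_le_mul_of_nonneg_left h6 (by positivity)
    _ = (Nat.primeCounting (x k) : ℝ) * (1 / (2 * (L + 1))) := by
        field_simp
    _ ≤ M β n := h5

/-- the start of the construction -/
lemma start' {L B : ℕ} (hL : 1 ≤ L) (W0 : ℕ) {u v : ℝ} (hu : 0 ≤ u) (huv : u < v) (hvB : v ≤ B) :
    ∃ w N : ℕ, W0 ≤ w ∧ 1 ≤ w ∧ Good L B w N ∧ u < (N : ℝ) / 2 ^ (L * w) ∧
      ((N : ℝ) + 1) / 2 ^ (L * w) < v := by
  set a := (2 * u + v) / 3 with ha
  set b := (u + 2 * v) / 3 with hb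
  have ha0 : 0 < a := by rw [ha]; linarith
  have hab : a < b := by rw [ha, hb]; linarith
  have hL0 : (0 : ℝ) < L := by exact_mod_cast hL
  have hT : Tendsto (fun w : ℕ => (2 : ℝ) ^ (L * w)) atTop atTop := by
    have h1 : Tendsto (fun w : ℕ => (2 : ℝ) ^ w) atTop atTop :=
      tendsto_pow_atTop_atTop_of_one_lt (by norm_num)
    refine h1.comp (tendsto_atTop_mono (fun w => ?_) tendsto_id)
    calc id w = 1 * w := (one_mul w).symm
      _ ≤ L * w := Nat.mul_le_mul_right w hL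
  have h1 := hT.eventually (exists_prime ha0 hab)
  have h2 : Tendsto (fun w : ℕ => ((w : ℝ) ^ 1 / 2 ^ w)) atTop (𝓝 0) :=
    tendsto_pow_const_div_const_pow_of_one_lt 1 (by norm_num)
  have h3 := h2.eventually_lt_const (show (0 : ℝ) < a / (L + 1) by positivity)
  have h4 := hT.eventually_gt_atTop (3 / (v - u))
  obtain ⟨w, ⟨hw1, hw2, hw3⟩, hw4, hw5⟩ := ((h1.and (h3.and h4)).and
    ((eventually_ge_atTop W0).and (eventually_ge_atTop 1))).exists
  obtain ⟨N, hN1, hN2, hN3⟩ := hw1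
  have hvu : 0 < v - u := by linarith
  have hpos : (0 : ℝ) < 2 ^ (L * w) := by positivity
  rw [div_lt_iff₀ hvu] at hw3
  rw [pow_one, div_lt_div_iff₀ (by positivity) (by positivity)] at hw2
  have hNv : ((N : ℝ) + 1) / 2 ^ (L * w) < v := by
    rw [div_lt_iff₀ hpos]
    have : b = v - (v - u) / 3 := by rw [hb]; ring
    rw [this] at hN3
    nlinarith
  refine ⟨w, N, hw4, hw5, ⟨hN1, ?_, ?_⟩, ?_, hNv⟩
  · have h5 : ((L * w + w : ℕ) : ℝ) < N := by
      push_cast
      have h6 : (2 : ℝ) ^ w ≤ 2 ^ (L * w) := by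
        refine pow_le_pow_right₀ (by norm_num) ?_
        calc w = 1 * w := (one_mul w).symm
          _ ≤ L * w := Nat.mul_le_mul_right w hL
      have h7 := mul_le_mul_of_nonneg_left h6 ha0.le
      nlinarith
    exact_mod_cast h5
  · have h5 : ((N + 1 : ℕ) : ℝ) ≤ ((B * 2 ^ (L * w) : ℕ) : ℝ) := by
      push_cast
      rw [div_lt_iff₀ hpos] at hNv
      exact hNv.le.trans (mul_le_mul_of_nonneg_right hvB hpos.le)
    exact_mod_cast h5
  · rw [lt_div_iff₀ hpos]
    have : u < a := by rw [ha]; linarith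
    have h5 := mul_lt_mul_of_pos_right this hpos
    linarith

/-- **Positive lower density, with dimension.** -/
theorem dim_density {s : ℝ} (hs : 0 < s) (hs1 : s < 1) : ∃ c : ℝ, 0 < c ∧ ∀ u v : ℝ, 0 ≤ u →
    u < v → ENNReal.ofReal s ≤ dimH {β : ℝ | β ∈ Set.Ioo u v ∧
      ∀ᶠ n : ℕ in atTop, c * Nat.primeCounting n ≤ M β n} := by
  obtain ⟨J0, hJ0⟩ := many Pool.Agent.H295R3.D.hoheisel
  set L := ⌈4 / (1 - s)⌉₊ with hLdef
  have h1s : 0 < 1 - s := by linarith
  have hLs : 4 ≤ L * (1 - s) := by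
    have h1 : 4 / (1 - s) ≤ L := Nat.le_ceil _
    rwa [div_le_iff₀ h1s] at h1
  have hL4 : 4 ≤ L := by
    have h1 : (4 : ℝ) ≤ L := by nlinarith [show (0 : ℝ) ≤ L from Nat.cast_nonneg L]
    exact_mod_cast h1
  set J := max L J0 with hJdef
  have hLJ : L ≤ J := le_max_left _ _
  have hJJ : J0 ≤ J := le_max_right _ _
  have hsL : s * (((L : ℝ) + 2) * (J + 1)) ≤ L * J - 2 := by
    have h2 : (L : ℝ) ≤ J := by exact_mod_cast hLJ
    have h3 : (4 : ℝ) ≤ L := by exact_mod_cast hL4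
    have h4 : (0 : ℝ) < (J : ℝ) + 1 := by linarith
    have h5 := mul_le_mul_of_nonneg_right hLs h4.le
    nlinarith [mul_pos h1s h4]
  refine ⟨1 / (2 * ((L : ℝ) + 1) * (J + 2)), by positivity, fun u v hu huv => ?_⟩
  have hL1 : 1 ≤ L := by omega
  obtain ⟨W0, hW0⟩ := hJ0 L ⌈v⌉₊ J hL1 hJJ
  obtain ⟨w0, N0, hw1, hw2, hG, hu1, hv1⟩ := start' hL1 W0 hu huv (Nat.le_ceil v)
  have hM : Many L J ⌈v⌉₊ w0 := fun w hw => hW0 w (hw1.trans hw)
  obtain ⟨g, hg1, hg2⟩ := main hL1 (by omega) hw2 hM hG hs hs1 hsL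
  refine dimH_ge (g := g) (C := (2 : ℝ) ^ (((L : ℝ) + 2) * w0 + 2)) (fun y hy => ?_)
    (by positivity) hs hg2
  obtain ⟨N, hN0, hN⟩ := hg1 y hy
  refine ⟨⟨?_, ?_⟩, ?_⟩
  · have h2 := (hN 0).2.1
    rw [hN0] at h2
    have e : ww J w0 0 = w0 := by simp [ww]
    rw [e] at h2
    exact hu1.trans h2
  · have h2 := (hN 0).2.2
    rw [hN0] at h2
    have e : ww J w0 0 = w0 := by simp [ww]
    rw [e] at h2
    refine lt_of_le_of_lt h2 (lt_of_le_of_lt ?_ hv1)
    rw [add_div]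
    have h3 : (1 : ℝ) / 2 ^ (L * w0 + w0) ≤ 1 / 2 ^ (L * w0) :=
      one_div_le_one_div_of_le (by positivity) (pow_le_pow_right₀ (by norm_num) (by omega))
    linarith
  · refine density hL1 (by omega) hw2 (N := N) fun k => ?_
    obtain ⟨h2, h3, h4⟩ := hN k
    exact ⟨h2.1, h2.2.1, h3, h4⟩

end Pool.Agent.R500.MG
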